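import Pool.Agent.Lib.MP_af33d6_an.OD.Odd

/-!
One-parameter families of counterexamples.
-/

open Polynomial Filter Topology OnePoint Set

namespace Pool.Agent.Lib.MP_af33d6_an.OD

lemma pt_eq_iff {a b c e : ℂ} (h1 : a ≠ 0 ∨ b ≠ 0) (h2 : c ≠ 0 ∨ e ≠ 0) :
    pt a b = pt c e ↔ a * e = c * b := by
  by_cases hb : b = 0
  · have ha : a ≠ 0 := by tauto
    rw [hb, pt_zero, eq_comm, pt_eq_infty]
    simp [ha]
  · by_cases he : e = 0
    · have hc : c ≠ 0 := by tauto
      rw [he, pt_zero, pt_eq_infty]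
      simp [hb, hc, eq_comm]
    · rw [pt_of_ne hb, pt_of_ne he, OnePoint.coe_eq_coe, div_eq_div_iff hb he]

lemma mob_form {m : P1 → P1} (hm : IsRat 1 m) : ∃ a b c e : ℂ, (a ≠ 0 ∨ c ≠ 0) ∧ m ∞ = pt a c ∧
    ∀ z : ℂ, (a * z + b ≠ 0 ∨ c * z + e ≠ 0) ∧ m (z : P1) = pt (a * z + b) (c * z + e) := by
  obtain ⟨P, Q, h, hd, rfl⟩ := hm
  have hP : P.natDegree ≤ 1 := hd ▸ le_max_left _ _
  have hQ : Q.natDegree ≤ 1 := hd ▸ le_max_right _ _
  have eP := eq_X_add_C_of_natDegree_le_one hP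
  have eQ := eq_X_add_C_of_natDegree_le_one hQ
  refine ⟨P.coeff 1, P.coeff 0, Q.coeff 1, Q.coeff 0, hd ▸ top_coeff_ne h,
    by rw [ratMap_infty, hd], fun z => ?_⟩
  have e1 : P.eval z = P.coeff 1 * z + P.coeff 0 := by
    conv_lhs => rw [eP]
    simp
  have e2 : Q.eval z = Q.coeff 1 * z + Q.coeff 0 := by
    conv_lhs => rw [eQ]
    simp
  rw [← e1, ← e2]
  exact ⟨no_common_root h z, rfl⟩

lemma mob_ext {m m' : P1 → P1} (hm : IsRat 1 m) (hm' : IsRat 1 m')
    (h1 : m ((2 : ℂ) : P1) = m' ((2 : ℂ) : P1)) (h2 : m ((-2 : ℂ) : P1) = m' ((-2 : ℂ) : P1))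
    (h3 : m ∞ = m' ∞) : m = m' := by
  obtain ⟨a, b, c, e, n1, i1, f1⟩ := mob_form hm
  obtain ⟨a', b', c', e', n2, i2, f2⟩ := mob_form hm'
  have h4 := h3
  rw [(f1 _).2, (f2 _).2, pt_eq_iff (f1 _).1 (f2 _).1] at h1 h2
  rw [i1, i2, pt_eq_iff n1 n2] at h4
  funext x
  induction x using OnePoint.rec with
  | infty => exact h3
  | coe z =>
    rw [(f1 _).2, (f2 _).2, pt_eq_iff (f1 _).1 (f2 _).1]
    linear_combination ((2 + z) / 4) * h1 + ((2 - z) / 4) * h2 + (z ^ 2 - 4) * h4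

/-- a conjugacy class meets a family with three marked critical values in few members -/
lemma finite_class {ι : Type} {d : ℕ} (f : ι → P1 → P1) (hf : ∀ i, IsRat d (f i))
    (h1 : ∀ i, nf (f i) ((2 : ℂ) : P1) < d) (h2 : ∀ i, nf (f i) ((-2 : ℂ) : P1) < d)
    (h3 : ∀ i, nf (f i) ∞ < d) (hfin : ∀ φ, {i | f i = φ}.Finite) (h : P1 → P1) :
    {i | IsConjugate (f i) h}.Finite := by
  classical
  rcases Set.eq_empty_or_nonempty {i | IsConjugate (f i) h} with e | ⟨i₀, m₀, hm₀, hc₀⟩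
  · rw [e]; exact Set.finite_empty
  have hg : GenDeg h d := genDeg_conj hm₀.bijective hc₀ (hf i₀).genDeg
  have hV : {y | ¬ (h ⁻¹' {y}).encard = d}.Finite := Filter.eventually_cofinite.1 hg
  set V := {y | ¬ (h ⁻¹' {y}).encard = d}
  have mem : ∀ i m x, IsRat 1 m → m ∘ f i = h ∘ m → nf (f i) x < d → m x ∈ V := by
    intro i m x hm hc hx e
    have := nf_conj hm.bijective hc x
    rw [nf, Set.ncard, e] at this
    simp at this
    omega
  have hM : {m : P1 → P1 | IsRat 1 m ∧ m ((2 : ℂ) : P1) ∈ V ∧ m ((-2 : ℂ) : P1) ∈ V ∧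
      m ∞ ∈ V}.Finite := by
    refine Set.Finite.of_finite_image (f := fun m => (m ((2 : ℂ) : P1), m ((-2 : ℂ) : P1), m ∞))
      ((hV.prod (hV.prod hV)).subset ?_) ?_
    · rintro _ ⟨m, hm, rfl⟩
      exact hm.2
    · intro m hm m' hm' e
      simp only [Prod.mk.injEq] at e
      exact mob_ext hm.1 hm'.1 e.1 e.2.1 e.2.2
  refine (hM.biUnion (t := fun m => {i | m ∘ f i = h ∘ m}) fun m hm => ?_).subset ?_
  · rcases Set.eq_empty_or_nonempty {i | m ∘ f i = h ∘ m} with e | ⟨j, hj⟩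
    · rw [e]; exact Set.finite_empty
    · refine (hfin (f j)).subset fun i hi => ?_
      funext x
      exact hm.1.bijective.1 ((congrFun hi x).trans (congrFun hj x).symm)
  · rintro i ⟨m, hm, hc⟩
    simp only [mem_iUnion]
    exact ⟨m, ⟨hm, mem i m _ hm hc (h1 i), mem i m _ hm hc (h2 i), mem i m _ hm hc (h3 i)⟩, hc⟩

/-- numerator of the family -/
noncomputable def fA (N r : ℕ) (s : ℝ) : ℂ[X] :=
  C ((s : ℂ) - r) * X ^ 2 + C (4 * N - 2 * s : ℂ) * X + C ((s : ℂ) + r)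

/-- denominator of the family -/
noncomputable def fB (N r : ℕ) (s : ℝ) : ℂ[X] :=
  C ((s : ℂ) + r) * X ^ 2 + C (4 * N - 2 * s : ℂ) * X + C ((s : ℂ) - r)

lemma eval_fA (N r : ℕ) (s : ℝ) (u : ℂ) :
    (fA N r s).eval u = (s - r) * u ^ 2 + (4 * N - 2 * s) * u + (s + r) := by simp [fA]

lemma eval_fB (N r : ℕ) (s : ℝ) (u : ℂ) :
    (fB N r s).eval u = (s + r) * u ^ 2 + (4 * N - 2 * s) * u + (s - r) := by simp [fB]

lemma dat_two {k r : ℕ} (hr : Odd r) (h2 : r < 2 * 2 ^ k) (g1 : ¬ 2 ^ k ∣ r - 1)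
    (g2 : ¬ 2 ^ k ∣ r + 1) {s : ℝ} (s1 : 2 * (2 ^ k : ℕ) - 1 < s)
    (s2 : 4 * (2 ^ k : ℕ) * s ≠ 4 * (2 ^ k : ℕ) ^ 2 + r ^ 2) :
    Dat0 (2 ^ k) r 2 (fA (2 ^ k) r s) (fB (2 ^ k) r s) := by
  have h1 : 2 ≤ r := by
    obtain ⟨a, rfl⟩ := hr
    rcases Nat.eq_zero_or_pos a with rfl | h
    · simp at g1
    · omega
  have hc : Nat.Coprime r (2 ^ k) := Nat.Coprime.pow_right k (Nat.coprime_two_right.2 hr)
  have p1 := half_one hr g1
  have p2 := half_two hr g2
  obtain ⟨p3, p4⟩ := four_le hr g2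
  generalize 2 ^ k = N at *
  have q1 : (r : ℝ) + 1 ≤ 2 * N := by exact_mod_cast h2
  have q2 : (4 : ℝ) ≤ N := by exact_mod_cast p4
  have q3 : (2 : ℝ) ≤ r := by exact_mod_cast h1
  have ha : (s : ℂ) - r ≠ 0 := by exact_mod_cast (by linarith : s - r > 0).ne'
  have hb : (s : ℂ) + r ≠ 0 := by exact_mod_cast (by linarith : s + r > 0).ne'
  have hN : (N : ℂ) ≠ 0 := by exact_mod_cast (by omega : N ≠ 0)
  have hr0 : (r : ℂ) ≠ 0 := by exact_mod_cast (by omega : r ≠ 0)
  have hs : (s : ℂ) - N ≠ 0 := by exact_mod_cast (by linarith : s - N > 0).ne'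
  have hd : 4 * (N : ℂ) * s - (4 * N ^ 2 + r ^ 2) ≠ 0 := by exact_mod_cast sub_ne_zero.2 s2
  refine ⟨p3, p4, hr, h1, h2.le, hc, p1, p2, natDegree_quadratic ha, natDegree_quadratic hb,
    fun u hu => ?_, by simpa [eval_fA] using hb, by simpa [eval_fB] using ha, fun u => ?_,
    fun u h3 h4 => ?_, ?_⟩
  · rw [eval_fA, eval_fB]
    field_simp
    ring
  · rw [eval_fA, eval_fB]
    by_contra! h
    have h3 : u * u = 1 := mul_left_cancel₀ hr0 (by linear_combination (h.2 - h.1) / 2)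
    rcases mul_self_eq_one_iff.1 h3 with rfl | rfl
    · exact hN (by linear_combination h.1 / 4)
    · exact hs (by linear_combination h.1 / 4)
  · rw [eval_fB] at h3
    have h5 : 2 * (s + r : ℂ) * u + (4 * N - 2 * s) = 0 := by
      simp only [fB, derivative_add, derivative_mul, derivative_C, derivative_X_pow, derivative_X,
        eval_add, eval_mul, eval_C, eval_pow, eval_X, eval_zero, eval_one] at h4
      linear_combination h4
    apply hd
    linear_combination (s + r : ℂ) * h3 - (2 * (s + r : ℂ) * u + (4 * N - 2 * s)) / 4 * h5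
  · simp only [crit, fA, fB, eval_add, eval_mul, eval_C, eval_X, eval_sub, derivative_add,
      derivative_mul, derivative_C, derivative_X, derivative_X_pow, eval_zero, eval_one, eval_pow]
    push_cast
    ring

lemma crit_two (N r : ℕ) (s : ℝ) : crit N r (fA N r s) (fB N r s) = (X - C 1) ^ 2 *
    (C (r * (s ^ 2 - r ^ 2) : ℂ) * (X + C 1) ^ 2 + C (4 * r * (2 * N - s) * (s - N) : ℂ) * X) := by
  apply Polynomial.funext
  intro u
  simp only [crit, fA, fB, eval_add, eval_mul, eval_C, eval_X, eval_sub, derivative_add,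
    derivative_mul, derivative_C, derivative_X, derivative_X_pow, eval_zero, eval_one, eval_pow]
  push_cast
  ring

lemma neg_root {a b : ℝ} (ha : 0 < a) (hb : 0 ≤ b) {u : ℂ} (h : a * (u + 1) ^ 2 + b * u = 0) :
    ∃ x : ℝ, x < 0 ∧ u = x := by
  have h1 := congrArg Complex.re h
  have h2 := congrArg Complex.im h
  simp [pow_two] at h1 h2
  have h3 : u.im = 0 := by
    by_contra h0
    have h4 : 2 * a * (u.re + 1) + b = 0 := mul_left_cancel₀ h0 (by linear_combination h2)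
    have h5 : 0 < u.im * u.im := mul_self_pos.2 h0
    have h6 : u.re + 1 ≤ 0 := by nlinarith
    nlinarith [mul_pos ha h5, mul_nonneg_of_nonpos_of_nonpos h6 h6]
  refine ⟨u.re, ?_, Complex.ext rfl (by simpa using h3)⟩
  by_contra! h0
  rw [h3] at h1
  nlinarith [mul_nonneg hb h0, mul_pos ha (mul_pos (by linarith : 0 < u.re + 1)
    (by linarith : 0 < u.re + 1))]

lemma fibOK_two {N r : ℕ} {s : ℝ} (D : Dat0 N r 2 (fA N r s) (fB N r s)) (s1 : (r : ℝ) < s)
    (s2 : (N : ℝ) ≤ s) (s3 : s ≤ 2 * N) : FibOK N r 2 2 (fA N r s) (fB N r s) := by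
  intro c hc
  by_cases h : ∃ z ∈ (num N r (fA N r s) - C c * expand ℂ N (fB N r s)).roots.toFinset, z ^ N = 1
  · obtain ⟨z, hz, hz1⟩ := h
    have hcN : c ^ N = 1 := by
      obtain ⟨-, -, h2⟩ := D.fibF_mem hc hz
      rw [eval_num, expand_eval, hz1, eval_fA, eval_fB] at h2
      have hN : (4 * N : ℂ) ≠ 0 := by simpa using D.N0
      have h3 : z ^ r = c := mul_right_cancel₀ hN (by linear_combination h2)
      rw [← h3, ← pow_mul, mul_comm, pow_mul, hz1, one_pow]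
    refine (D.fibF_card hc (crit_two N r s) fun y hy e => ?_).trans
      (Nat.add_le_add_left (by compute_degree) _)
    have q3 : (2 : ℝ) ≤ r := by exact_mod_cast D.hr2
    obtain ⟨x, hx, hxy⟩ := neg_root (a := r * (s ^ 2 - r ^ 2)) (b := 4 * r * (2 * N - s) * (s - N))
      (u := y ^ N) (mul_pos (by linarith) (by nlinarith))
      (mul_nonneg (mul_nonneg (by linarith) (by linarith)) (by linarith)) (by
        simp only [eval_add, eval_mul, eval_C, eval_pow, eval_X] at e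
        push_cast
        linear_combination e)
    obtain ⟨-, h1, h2⟩ := D.fibF_mem hc hy
    rw [expand_eval, hxy, eval_fB] at h1
    rw [eval_num, expand_eval, hxy, eval_fA, eval_fB] at h2
    have h3 := congrArg (· ^ N) h2
    simp only [mul_pow] at h3
    rw [hcN, one_mul, ← pow_mul, mul_comm r N, pow_mul, hxy] at h3
    have h4 : x ^ r * ((s - r) * x ^ 2 + (4 * N - 2 * s) * x + (s + r)) ^ N =
        ((s + r) * x ^ 2 + (4 * N - 2 * s) * x + (s - r)) ^ N := by exact_mod_cast h3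
    have h5 : (s + r) * x ^ 2 + (4 * N - 2 * s) * x + (s - r) ≠ 0 := by exact_mod_cast h1
    have h6 := D.hN.pow_pos h5
    have h7 := D.hN.pow_nonneg ((s - r) * x ^ 2 + (4 * N - 2 * s) * x + (s + r))
    have h8 := D.hr.pow_neg hx
    nlinarith
  · refine (D.fibF_card hc ((crit_two N r s).trans (mul_comm _ _)) fun y hy e => ?_).trans
      (Nat.add_le_add_left (by compute_degree) _)
    refine h ⟨y, hy, ?_⟩
    simpa [sub_eq_zero] using e

theorem family {d : ℕ} (ho : Odd d)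
    (h : ∀ k, d + 1 ≠ 2 ^ k ∧ d ≠ 2 ^ k + 1 ∧ d + 1 ≠ 3 * 2 ^ k ∧ d ≠ 3 * 2 ^ k + 1)
    (T : Set (P1 → P1)) (hT : T.Countable) :
    ∃ f g, Counter d f g ∧ ∀ h ∈ T, ¬ IsConjugate f h := by
  have hd : 1 < d := by
    obtain ⟨a, rfl⟩ := ho
    have := (h 1).1
    omega
  obtain ⟨k, r, hr, h1, rfl⟩ := split_deg hd ho
  have h2 := (h (k + 1)).2.1
  have h3 := (h (k + 2)).1
  have h4 := (h k).2.2
  rw [pow_succ 2 (k + 1)] at h3
  rw [pow_succ'] at h1 h2 h3 h4 hd ⊢
  have hr1 : 1 ≤ r := hr.pos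
  have g1 : ¬ 2 ^ k ∣ r - 1 := by
    rintro ⟨c, hc⟩
    rcases c with _ | _ | c
    · omega
    · omega
    · have : 2 ^ k * (c + 1 + 1) = 2 ^ k * c + 2 * 2 ^ k := by ring
      omega
  have g2 : ¬ 2 ^ k ∣ r + 1 := by
    rintro ⟨c, hc⟩
    rcases c with _ | _ | _ | c
    · omega
    · omega
    · omega
    · have : 2 ^ k * (c + 1 + 1 + 1) = 2 ^ k * c + 3 * 2 ^ k := by ring
      have : 1 ≤ 2 ^ k := Nat.one_le_two_pow
      omega
  have key := fun s => dat_two (s := s) hr h1 g1 g2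
  have p4 := (four_le hr g2).2
  generalize 2 ^ k = N at *
  have q1 : (r : ℝ) + 1 ≤ 2 * N := by exact_mod_cast h1
  have q2 : (4 : ℝ) ≤ N := by exact_mod_cast p4
  set I : Set ℝ := Ioo (2 * N - 1) (2 * N) \ {(4 * (N : ℝ) ^ 2 + r ^ 2) / (4 * N)} with hI
  have D0 : ∀ s : I, Dat0 N r 2 (fA N r s) (fB N r s) := fun s => key s s.2.1.1 fun e =>
    s.2.2 (by rw [mem_singleton_iff, eq_div_iff (by positivity)]; linarith)
  choose P Q D using fun s => (D0 s).exists_PQ
  obtain ⟨z, hz⟩ := IsAlgClosed.exists_pow_nat_eq (2 : ℂ) (n := N) (by omega)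
  have hz0 : z ≠ 0 := by rintro rfl; rw [zero_pow (by omega)] at hz; norm_num at hz
  have q3 : (1 : ℝ) ≤ r := by exact_mod_cast hr1
  have n1 : ∀ s : I, ((s : ℝ) : ℂ) + 8 * N - 3 * r ≠ 0 := fun s => by
    have := s.2.1.1
    exact_mod_cast (by linarith : (s : ℝ) + 8 * N - 3 * r > 0).ne'
  have n2 : ∀ s : I, ((s : ℝ) : ℂ) + 8 * N + 3 * r ≠ 0 := fun s => by
    have := s.2.1.1
    exact_mod_cast (by linarith : (s : ℝ) + 8 * N + 3 * r > 0).ne'
  set y : I → ℂ := fun s => z ^ r * (((s : ℝ) : ℂ) + 8 * N - 3 * r) / (((s : ℝ) : ℂ) + 8 * N + 3 * r)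
    with hy
  have y0 : ∀ s, y s ≠ 0 := fun s => div_ne_zero (mul_ne_zero (pow_ne_zero _ hz0) (n1 s)) (n2 s)
  have yinj : Function.Injective y := by
    intro s t e
    simp only [hy] at e
    rw [div_eq_div_iff (n2 s) (n2 t)] at e
    have hr0 : 6 * (r : ℂ) * z ^ r ≠ 0 :=
      mul_ne_zero (by exact_mod_cast (by omega : 6 * r ≠ 0)) (pow_ne_zero _ hz0)
    have : ((s : ℝ) : ℂ) = ((t : ℝ) : ℂ) := mul_left_cancel₀ hr0 (by linear_combination e)
    exact Subtype.ext (by exact_mod_cast this)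
  have val : ∀ s : I, rm (C 1 * P s) (Q s) (qm (z : P1)) = ((y s + (y s)⁻¹ : ℂ) : P1) := by
    intro s
    rw [(D s).f_qm, ← qm_coe (y0 s), rm_coe, eval_num, expand_eval, hz, eval_fA, eval_fB, hy,
      ← pt_of_ne (n2 s)]
    congr 2 <;> ring
  have hfin := finite_class (fun s : I => rm (C 1 * P s) (Q s))
    (fun s => (D s).isRat one_ne_zero)
    (fun s => by
      have := (D s).nf_small (e := 1) (by simp)
      rw [mul_one] at this
      omega)
    (fun s => by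
      have := (D s).nf_small (e := -1) (by simp)
      rw [mul_neg, mul_one] at this
      omega)
    (fun s => (D s).nf_infty_lt)
    (fun φ => by
      rcases Set.eq_empty_or_nonempty {s : I | rm (C 1 * P s) (Q s) = φ} with e | ⟨t, ht⟩
      · rw [e]; exact Set.finite_empty
      refine Set.Finite.of_finite_image (f := y) ((Set.toFinite {y t, (y t)⁻¹}).subset ?_)
        yinj.injOn
      rintro _ ⟨s, hs, rfl⟩
      have e := val s
      rw [hs.trans ht.symm, val t, OnePoint.coe_eq_coe] at e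
      exact (add_inv_eq_iff (y0 s) (y0 t)).1 e.symm)
  have hI' : ¬ I.Countable := by
    intro hc
    have h5 : (Ioo (2 * (N : ℝ) - 1) (2 * N)).Countable :=
      (hc.insert ((4 * (N : ℝ) ^ 2 + r ^ 2) / (4 * N))).mono (subset_insert_sdiff_singleton _ _)
    have h6 := h5.measure_zero MeasureTheory.volume
    simp at h6
  by_contra! hcon
  apply hI'
  rw [← Set.countable_coe_iff, ← Set.countable_univ_iff]
  refine (hT.biUnion fun h _ => (hfin h).countable).mono fun s _ => ?_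
  have hs := s.2.1
  have := (D s).counter (fibOK_two (D0 s) (by linarith [hs.1]) (by linarith [hs.1]) hs.2.le)
  rw [add_comm] at this
  simpa only [mem_iUnion, exists_prop, mem_ofPred_eq] using hcon _ _ this

end Pool.Agent.Lib.MP_af33d6_an.OD
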