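import Pool.Agent.Lib.MP_af33d6_an.OD.Fam

/-!
One-parameter families of counterexamples: both maps of the pair avoid countably many classes.
-/

open Polynomial Filter Topology OnePoint Set

namespace Pool.Agent.Lib.MP_af33d6_an.OD

lemma nf_neg (P Q : ℂ[X]) (x : P1) :
    nf (rm (C (-1) * P) Q) x = nf (rm (C 1 * P) Q) (sc (-1) x) := by
  unfold nf
  congr 1
  ext z
  simp only [mem_preimage, mem_singleton_iff]
  rw [Dat.f_neg]
  constructor
  · intro e
    rw [← e, sc_sc]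
    simp
  · intro e
    rw [e, sc_sc]
    simp

theorem family_both {d : ℕ} (ho : Odd d)
    (h : ∀ k, d + 1 ≠ 2 ^ k ∧ d ≠ 2 ^ k + 1 ∧ d + 1 ≠ 3 * 2 ^ k ∧ d ≠ 3 * 2 ^ k + 1)
    (T : Set (P1 → P1)) (hT : T.Countable) :
    ∃ f g, Counter d f g ∧ ∀ h ∈ T, ¬ IsConjugate f h ∧ ¬ IsConjugate g h := by
  have hd : 1 < d := by
    obtain ⟨a, rfl⟩ := ho
    have := (h 1).1
    omega
  obtain ⟨k, r, hr, h1, rfl⟩ := split_deg hd ho
  have h2 := (h (k + 1)).2.1
  have h3 := (h (k + 2)).1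
  have h4 := (h k).2.2
  rw [pow_succ 2 (k + 1)] at h3
  rw [pow_succ'] at h1 h2 h3 h4 hd ⊢
  have hr1 : 1 ≤ r := hr.pos
  have g1 : ¬ 2 ^ k ∣ r - 1 := by
    rintro ⟨c, hc⟩
    rcases c with _ | _ | c
    · omega
    · omega
    · have : 2 ^ k * (c + 1 + 1) = 2 ^ k * c + 2 * 2 ^ k := by ring
      omega
  have g2 : ¬ 2 ^ k ∣ r + 1 := by
    rintro ⟨c, hc⟩
    rcases c with _ | _ | _ | c
    · omega
    · omega
    · omega
    · have : 2 ^ k * (c + 1 + 1 + 1) = 2 ^ k * c + 3 * 2 ^ k := by ring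
      have : 1 ≤ 2 ^ k := Nat.one_le_two_pow
      omega
  have key := fun s => dat_two (s := s) hr h1 g1 g2
  have p4 := (four_le hr g2).2
  generalize 2 ^ k = N at *
  have q1 : (r : ℝ) + 1 ≤ 2 * N := by exact_mod_cast h1
  have q2 : (4 : ℝ) ≤ N := by exact_mod_cast p4
  set I : Set ℝ := Ioo (2 * N - 1) (2 * N) \ {(4 * (N : ℝ) ^ 2 + r ^ 2) / (4 * N)} with hI
  have D0 : ∀ s : I, Dat0 N r 2 (fA N r s) (fB N r s) := fun s => key s s.2.1.1 fun e =>
    s.2.2 (by rw [mem_singleton_iff, eq_div_iff (by positivity)]; linarith)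
  choose P Q D using fun s => (D0 s).exists_PQ
  obtain ⟨z, hz⟩ := IsAlgClosed.exists_pow_nat_eq (2 : ℂ) (n := N) (by omega)
  have hz0 : z ≠ 0 := by rintro rfl; rw [zero_pow (by omega)] at hz; norm_num at hz
  have q3 : (1 : ℝ) ≤ r := by exact_mod_cast hr1
  have n1 : ∀ s : I, ((s : ℝ) : ℂ) + 8 * N - 3 * r ≠ 0 := fun s => by
    have := s.2.1.1
    exact_mod_cast (by linarith : (s : ℝ) + 8 * N - 3 * r > 0).ne'
  have n2 : ∀ s : I, ((s : ℝ) : ℂ) + 8 * N + 3 * r ≠ 0 := fun s => by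
    have := s.2.1.1
    exact_mod_cast (by linarith : (s : ℝ) + 8 * N + 3 * r > 0).ne'
  set y : I → ℂ := fun s => z ^ r * (((s : ℝ) : ℂ) + 8 * N - 3 * r) / (((s : ℝ) : ℂ) + 8 * N + 3 * r)
    with hy
  have y0 : ∀ s, y s ≠ 0 := fun s => div_ne_zero (mul_ne_zero (pow_ne_zero _ hz0) (n1 s)) (n2 s)
  have yinj : Function.Injective y := by
    intro s t e
    simp only [hy] at e
    rw [div_eq_div_iff (n2 s) (n2 t)] at e
    have hr0 : 6 * (r : ℂ) * z ^ r ≠ 0 :=
      mul_ne_zero (by exact_mod_cast (by omega : 6 * r ≠ 0)) (pow_ne_zero _ hz0)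
    have : ((s : ℝ) : ℂ) = ((t : ℝ) : ℂ) := mul_left_cancel₀ hr0 (by linear_combination e)
    exact Subtype.ext (by exact_mod_cast this)
  have val : ∀ s : I, rm (C 1 * P s) (Q s) (qm (z : P1)) = ((y s + (y s)⁻¹ : ℂ) : P1) := by
    intro s
    rw [(D s).f_qm, ← qm_coe (y0 s), rm_coe, eval_num, expand_eval, hz, eval_fA, eval_fB, hy,
      ← pt_of_ne (n2 s)]
    congr 2 <;> ring
  have a1 : ∀ s : I, nf (rm (C 1 * P s) (Q s)) ((2 : ℂ) : P1) < r + 2 * N := fun s => by
    have := (D s).nf_small (e := 1) (by simp)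
    rw [mul_one] at this
    omega
  have a2 : ∀ s : I, nf (rm (C 1 * P s) (Q s)) ((-2 : ℂ) : P1) < r + 2 * N := fun s => by
    have := (D s).nf_small (e := -1) (by simp)
    rw [mul_neg, mul_one] at this
    omega
  have a3 : ∀ φ, {s : I | rm (C 1 * P s) (Q s) = φ}.Finite := fun φ => by
    rcases Set.eq_empty_or_nonempty {s : I | rm (C 1 * P s) (Q s) = φ} with e | ⟨t, ht⟩
    · rw [e]; exact Set.finite_empty
    refine Set.Finite.of_finite_image (f := y) ((Set.toFinite {y t, (y t)⁻¹}).subset ?_)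
      yinj.injOn
    rintro _ ⟨s, hs, rfl⟩
    have e := val s
    rw [hs.trans ht.symm, val t, OnePoint.coe_eq_coe] at e
    exact (add_inv_eq_iff (y0 s) (y0 t)).1 e.symm
  have hfin := finite_class (fun s : I => rm (C 1 * P s) (Q s))
    (fun s => (D s).isRat one_ne_zero) a1 a2 (fun s => (D s).nf_infty_lt) a3
  have hfin' := finite_class (fun s : I => rm (C (-1) * P s) (Q s))
    (fun s => (D s).isRat (by norm_num))
    (fun s => by rw [nf_neg]; simpa using a2 s)
    (fun s => by rw [nf_neg]; simpa using a1 s)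
    (fun s => by rw [nf_neg]; simpa using (D s).nf_infty_lt)
    (fun φ => (a3 (sc (-1) ∘ φ)).subset fun s hs => by
      have hs' : rm (C (-1) * P s) (Q s) = φ := hs
      show rm (C 1 * P s) (Q s) = sc (-1) ∘ φ
      funext x
      rw [← hs', Function.comp, Dat.f_neg, sc_sc]
      simp)
  have hI' : ¬ I.Countable := by
    intro hc
    have h5 : (Ioo (2 * (N : ℝ) - 1) (2 * N)).Countable :=
      (hc.insert ((4 * (N : ℝ) ^ 2 + r ^ 2) / (4 * N))).mono (subset_insert_sdiff_singleton _ _)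
    have h6 := h5.measure_zero MeasureTheory.volume
    simp at h6
  by_contra! hcon
  apply hI'
  rw [← Set.countable_coe_iff, ← Set.countable_univ_iff]
  refine (hT.biUnion fun h _ => ((hfin h).union (hfin' h)).countable).mono fun s _ => ?_
  have hs := s.2.1
  have := (D s).counter (fibOK_two (D0 s) (by linarith [hs.1]) (by linarith [hs.1]) hs.2.le)
  rw [add_comm] at this
  obtain ⟨h, hh, hc⟩ := hcon _ _ this
  simp only [mem_iUnion, exists_prop, mem_union, mem_ofPred_eq]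
  exact ⟨h, hh, or_iff_not_imp_left.2 hc⟩

end Pool.Agent.Lib.MP_af33d6_an.OD
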