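import Pool.Agent.Lib.MP_af33d6_an.OD.Sym

/-!
Sizes of the fibres of the quotient maps; the pair `f`, `- f` is a counterexample.
-/

open Polynomial Filter Topology OnePoint Set

namespace Pool.Agent.Lib.MP_af33d6_an.OD

lemma deg_le_card {U V : ℂ[X]} (hU : U ≠ 0) (hW : wronskian U V ≠ 0) :
    U.natDegree ≤ U.roots.toFinset.card +
      ∑ z ∈ U.roots.toFinset, (wronskian U V).rootMultiplicity z := by
  rw [← sum_mult U, Finset.card_eq_sum_ones, ← Finset.sum_add_distrib]
  exact Finset.sum_le_sum fun z _ => (mult_le_wr hU hW z).trans (add_comm _ _).le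

lemma card_le_nf {d : ℕ} {f : P1 → P1} (hf : IsRat d f) (hd : 1 ≤ d) (c : P1) (T : Finset P1)
    (hT : ∀ x ∈ T, f x = c) : T.card ≤ nf f c := by
  rw [← Set.ncard_coe_finset]
  exact Set.ncard_le_ncard (fun x hx => hT x hx) (hf.finite_fib hd c)

/-- the fibres of `F` other than those over `0` and `∞` have at least `d - e` points -/
def FibOK (N r m e : ℕ) (A B : ℂ[X]) : Prop :=
  ∀ s : ℂ, s ≠ 0 → r + m * N ≤ (num N r A - C s * expand ℂ N B).roots.toFinset.card + e

namespace Dat0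

variable {N r m : ℕ} {A B : ℂ[X]} (D : Dat0 N r m A B)
include D

lemma fibF_deg (s : ℂ) : (num N r A - C s * expand ℂ N B).natDegree = r + m * N := by
  rw [natDegree_sub_eq_left_of_natDegree_lt, D.deg_num]
  refine (natDegree_C_mul_le _ _).trans_lt ?_
  rw [D.deg_num, D.deg_den]
  have := D.hr2
  omega

lemma fibF_ne (s : ℂ) : num N r A - C s * expand ℂ N B ≠ 0 := by
  intro e
  have := D.fibF_deg s
  rw [e, natDegree_zero] at this
  have := D.hr2
  omega

lemma fibF_mem {s z : ℂ} (hs : s ≠ 0)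
    (hz : z ∈ (num N r A - C s * expand ℂ N B).roots.toFinset) :
    z ≠ 0 ∧ (expand ℂ N B).eval z ≠ 0 ∧ (num N r A).eval z = s * (expand ℂ N B).eval z := by
  rw [Multiset.mem_toFinset, mem_roots (D.fibF_ne s), IsRoot.def, eval_sub, eval_mul, eval_C,
    sub_eq_zero] at hz
  refine ⟨?_, fun e => ?_, hz⟩
  · rintro rfl
    rw [D.num_zero] at hz
    exact mul_ne_zero hs D.den_zero hz.symm
  · rcases D.ncz z with h | h
    · exact h (by rw [hz, e, mul_zero])
    · exact h e

lemma fibF_card {s : ℂ} (hs : s ≠ 0) {G H : ℂ[X]} (hG : crit N r A B = G * H)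
    (hH : ∀ z ∈ (num N r A - C s * expand ℂ N B).roots.toFinset, H.eval (z ^ N) ≠ 0) :
    r + m * N ≤ (num N r A - C s * expand ℂ N B).roots.toFinset.card + G.natDegree := by
  have hE : expand ℂ N (crit N r A B) ≠ 0 :=
    (expand_ne_zero (Nat.pos_of_ne_zero D.N0)).2 D.crit_ne
  have hW : wronskian (num N r A - C s * expand ℂ N B) (expand ℂ N B) =
      -X ^ (r - 1) * expand ℂ N (crit N r A B) := by
    rw [← D.wr_eq]; exact frm_wr (P := num N r A) (Q := expand ℂ N B) (s : P1)
  have hW0 : -X ^ (r - 1) * expand ℂ N (crit N r A B) ≠ 0 :=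
    mul_ne_zero (neg_ne_zero.2 (pow_ne_zero _ X_ne_zero)) hE
  have h1 := deg_le_card (D.fibF_ne s) (hW ▸ hW0)
  rw [D.fibF_deg, hW] at h1
  have h2 := sum_mult_expand D.N0 (num N r A - C s * expand ℂ N B).roots.toFinset
    (fun z hz => (D.fibF_mem hs hz).1) (by
      intro z hz y hy e
      obtain ⟨z0, z1, z2⟩ := D.fibF_mem hs hz
      obtain ⟨y0, -, y2⟩ := D.fibF_mem hs hy
      rw [eval_num, expand_eval] at z2 y2
      rw [expand_eval] at z1
      rw [← e] at y2
      have hA : A.eval (z ^ N) ≠ 0 := by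
        intro h
        rw [h, mul_zero] at z2
        exact mul_ne_zero hs z1 z2.symm
      have h3 : z ^ r = y ^ r := mul_right_cancel₀ hA (z2.trans y2.symm)
      have h4 : (z / y) ^ r = 1 ∧ (z / y) ^ N = 1 := by
        rw [div_pow, div_pow, h3, e, div_self (pow_ne_zero _ y0), div_self (pow_ne_zero _ y0)]
        exact ⟨rfl, rfl⟩
      have h5 := pow_gcd_eq_one.2 h4
      rw [D.cop.gcd_eq_one, pow_one] at h5
      exact (div_eq_one_iff_eq y0).1 h5) (left_ne_zero_of_mul (hG ▸ D.crit_ne))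
  have h4 : ∑ z ∈ (num N r A - C s * expand ℂ N B).roots.toFinset,
      (-X ^ (r - 1) * expand ℂ N (crit N r A B)).rootMultiplicity z =
      ∑ z ∈ (num N r A - C s * expand ℂ N B).roots.toFinset,
      (expand ℂ N G).rootMultiplicity z := by
    refine Finset.sum_congr rfl fun z hz => ?_
    rw [rootMultiplicity_mul hW0, rootMultiplicity_eq_zero (by simp [(D.fibF_mem hs hz).1]),
      zero_add]
    rw [hG, map_mul] at hE ⊢
    rw [rootMultiplicity_mul hE, rootMultiplicity_eq_zero (p := expand ℂ N H)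
      (by simpa [expand_eval] using hH z hz), add_zero]
  omega

lemma fibOK : FibOK N r m (2 * m) A B := fun s hs =>
  (D.fibF_card hs (mul_one _).symm (by simp)).trans (Nat.add_le_add_left D.crit_deg _)

lemma card_poles : (expand ℂ N B).roots.toFinset.card = m * N := by
  rw [Multiset.toFinset_card_of_nodup, IsAlgClosed.card_roots_eq_natDegree, D.deg_den]
  rw [Multiset.nodup_iff_count_le_one]
  intro z
  rw [count_roots]
  by_contra! hlt
  obtain ⟨r1, r2⟩ := (one_lt_rootMultiplicity_iff_isRoot D.den_ne).1 hlt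
  have hz : z ≠ 0 := by rintro rfl; exact D.den_zero r1
  rw [IsRoot.def, expand_eval] at r1
  rw [IsRoot.def, derivative_expand, eval_mul, expand_eval] at r2
  rcases mul_eq_zero.1 r2 with h | h
  · exact D.sep _ r1 h
  · simp [hz, D.N0] at h

end Dat0

namespace Dat

variable {N r m : ℕ} {A B P Q : ℂ[X]} (D : Dat N r m A B P Q)
include D

lemma d_pos : 1 ≤ r + m * N := by have := D.hr2; omega

lemma maps {s z : ℂ} (hs : s ≠ 0) (hz : z ∈ (num N r A - C s * expand ℂ N B).roots.toFinset) :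
    rm (C 1 * P) Q ((z + z⁻¹ : ℂ) : P1) = ((s + s⁻¹ : ℂ) : P1) := by
  obtain ⟨z0, z1, z2⟩ := D.fibF_mem hs hz
  rw [← qm_coe z0, D.f_qm, ← qm_coe hs, rm_coe, pt_eq_coe.2 ⟨z1, z2⟩]

lemma nf_two {e : ℕ} (hF : FibOK N r m e A B) {s : ℂ} (hs : s ≠ 0) :
    r + m * N ≤ 2 * nf (rm (C 1 * P) Q) ((s + s⁻¹ : ℂ) : P1) + e := by
  classical
  have h1 := hF s hs
  set R := (num N r A - C s * expand ℂ N B).roots.toFinset
  have h2 := card_le_nf (D.isRat one_ne_zero) D.d_pos ((s + s⁻¹ : ℂ) : P1)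
    (R.image fun z => ((z + z⁻¹ : ℂ) : P1)) (by
      intro x hx
      obtain ⟨z, hz, rfl⟩ := Finset.mem_image.1 hx
      exact D.maps hs hz)
  have h3 := Finset.card_le_mul_card_image (f := fun z : ℂ => ((z + z⁻¹ : ℂ) : P1)) R 2 (by
    intro x hx
    obtain ⟨z, hz, rfl⟩ := Finset.mem_image.1 hx
    refine le_trans (Finset.card_le_card (t := {z, z⁻¹}) fun y hy => ?_) Finset.card_le_two
    rw [Finset.mem_filter, OnePoint.coe_eq_coe,
      add_inv_eq_iff (D.fibF_mem hs hy.1).1 (D.fibF_mem hs hz).1] at hy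
    simpa using hy.2)
  omega

lemma nf_gen {e : ℕ} (hF : FibOK N r m e A B) {c : ℂ} (h1 : c ≠ 2) (h2 : c ≠ -2) :
    r + m * N ≤ nf (rm (C 1 * P) Q) (c : P1) + e := by
  classical
  obtain ⟨s, hs, rfl⟩ := exists_add_inv c
  have h3 := hF s hs
  set R := (num N r A - C s * expand ℂ N B).roots.toFinset
  have h4 := card_le_nf (D.isRat one_ne_zero) D.d_pos ((s + s⁻¹ : ℂ) : P1)
    (R.image fun z => ((z + z⁻¹ : ℂ) : P1)) (by
      intro x hx
      obtain ⟨z, hz, rfl⟩ := Finset.mem_image.1 hx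
      exact D.maps hs hz)
  rw [Finset.card_image_of_injOn] at h4
  · omega
  intro y hy z hz e
  obtain ⟨y0, -, y2⟩ := D.fibF_mem hs hy
  obtain ⟨z0, z1, z2⟩ := D.fibF_mem hs hz
  rcases (add_inv_eq_iff y0 z0).1 (OnePoint.coe_injective e) with h | rfl
  · exact h
  · exfalso
    have h5 := D.rev_num z0
    rw [y2, mul_left_comm, D.rev_den z0, z2] at h5
    have h6 : s * s = 1 := mul_right_cancel₀ z1 (by linear_combination h5)
    rcases mul_self_eq_one_iff.1 h6 with rfl | rfl
    · exact h1 (by norm_num)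
    · exact h2 (by norm_num)

lemma nf_infty {ε : ℂ} (hε : ε ≠ 0) : m * N + 1 ≤ nf (rm (C ε * P) Q) ∞ := by
  classical
  have mem : ∀ z ∈ (expand ℂ N B).roots.toFinset, z ≠ 0 ∧ (expand ℂ N B).eval z = 0 := by
    intro z hz
    rw [Multiset.mem_toFinset, mem_roots D.den_ne] at hz
    exact ⟨by rintro rfl; exact D.den_zero hz, hz⟩
  have h4 := card_le_nf (D.isRat hε) D.d_pos ∞
    (insert ∞ ((expand ℂ N B).roots.toFinset.image fun z => ((z + z⁻¹ : ℂ) : P1))) (by
      intro x hx
      rcases Finset.mem_insert.1 hx with rfl | hx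
      · rfl
      obtain ⟨z, hz, rfl⟩ := Finset.mem_image.1 hx
      have := D.hQ z (mem z hz).1
      rw [(mem z hz).2, mul_zero] at this
      rw [rm_coe, pt_eq_infty]
      exact (mul_eq_zero.1 this).resolve_left (pow_ne_zero _ (mem z hz).1))
  rw [Finset.card_insert_of_notMem (by simp), Finset.card_image_of_injOn, D.card_poles] at h4
  · exact h4
  intro y hy z hz e
  rcases (add_inv_eq_iff (mem y hy).1 (mem z hz).1).1 (OnePoint.coe_injective e) with h | rfl
  · exact h
  · exfalso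
    have h5 := D.rev_den (mem z hz).1
    rw [(mem _ hy).2, mul_zero] at h5
    exact (D.ncz z).elim (fun h => h h5.symm) (fun h => h (mem z hz).2)

lemma nf_infty_lt : nf (rm (C 1 * P) Q) ∞ < r + m * N := by
  have hd : 1 ≤ max (C 1 * P).natDegree Q.natDegree := by
    rw [D.max_deg one_ne_zero]; exact D.d_pos
  rw [D.f_eq one_ne_zero, nf_eq (D.cop_e one_ne_zero) hd]
  have h1 := (Multiset.toFinset_card_le Q.roots).trans (card_roots' Q)
  rw [D.deg_Q] at h1
  have h2 := D.hr2
  show Q.roots.toFinset.card + _ < _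
  split_ifs <;> omega

lemma nf_small {e : ℂ} (he : e * e = 1) :
    2 * nf (rm (C 1 * P) Q) ((2 * e : ℂ) : P1) < r + m * N := by
  have hd : 1 ≤ max (C 1 * P).natDegree Q.natDegree := by
    rw [D.max_deg one_ne_zero]; exact D.d_pos
  have hne : ratMap (C 1 * P) Q ∞ ≠ ((2 * e : ℂ) : P1) := by rw [← D.f_eq one_ne_zero]; simp
  have h1 := frm_deg_of_ne (D.cop_e one_ne_zero) hne
  have h2 := two_mul_card_le (frm_ne (D.cop_e one_ne_zero) hd ((2 * e : ℂ) : P1)) (by
    show ∀ w, (C 1 * P - C (2 * e) * Q).eval w = 0 → (derivative (C 1 * P - C (2 * e) * Q)).eval w = 0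
    rw [C_1, one_mul]
    exact fun w hw => D.mult_roots he hw)
  rw [D.f_eq one_ne_zero, nf_eq (D.cop_e one_ne_zero) hd, if_neg hne]
  rw [h1, D.max_deg one_ne_zero] at h2
  obtain ⟨k, hk⟩ := D.odd_d
  omega

lemma inv2 {e : ℕ} (hF : FibOK N r m e A B) : Inv2 2 (r + m * N) e (rm (C 1 * P) Q) := by
  refine ⟨(D.isRat one_ne_zero).genDeg, ⟨_, D.f_fix (z := 1) (by simp), D.nf_small (by simp)⟩,
    Or.inr ⟨((2 : ℂ) : P1), ((-2 : ℂ) : P1), ∞, ?_, by simp, by simp, ?_, ?_, ?_, ?_⟩⟩
  · rw [Ne, OnePoint.coe_eq_coe]; norm_num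
  · intro c h1 h2 h3
    obtain ⟨c, rfl⟩ := OnePoint.ne_infty_iff_exists.1 h3
    exact D.nf_gen hF (fun e => h1 (by rw [e])) (fun e => h2 (by rw [e]))
  · have := D.nf_two hF one_ne_zero
    rwa [show (1 : ℂ) + 1⁻¹ = 2 by norm_num] at this
  · have := D.nf_two hF (s := -1) (by norm_num)
    rwa [show (-1 : ℂ) + (-1)⁻¹ = -2 by norm_num] at this
  · have := D.nf_infty one_ne_zero
    have := D.hrm
    omega

lemma not_small : ¬ Small 2 (r + m * N) (rm (C (-1) * P) Q) := by
  rintro ⟨x, hx, hc⟩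
  induction x using OnePoint.rec with
  | infty =>
    have := D.nf_infty (ε := -1) (by norm_num)
    have := D.hrm
    omega
  | coe c =>
    have key : ∀ x, rm (C (-1) * P) Q x = (c : P1) ↔ rm (C 1 * P) Q x = ((-c : ℂ) : P1) := by
      intro x
      rw [f_neg]
      constructor
      · intro e
        have := congrArg (sc (-1)) e
        simpa [sc_sc] using this
      · intro e
        rw [e]; simp
    have h1 : nf (rm (C (-1) * P) Q) c = nf (rm (C 1 * P) Q) ((-c : ℂ) : P1) := by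
      unfold nf
      congr 1
      ext x
      exact key x
    rw [key] at hx
    have h2 := D.nf_gen D.fibOK (c := -c) (by
      intro e
      have e2 : c = 2 * -1 := by linear_combination -e
      rw [e, e2, D.f_fix (by simp), OnePoint.coe_eq_coe] at hx
      norm_num at hx) (by
      intro e
      have e2 : c = 2 * 1 := by linear_combination -e
      rw [e, e2, D.f_fix (by simp), OnePoint.coe_eq_coe] at hx
      norm_num at hx)
    have h3 := Nat.mul_le_mul_left m D.hN4
    omega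

end Dat

/-- `f` and `g` are rational maps of degree `d` which are not conjugate, have the same multiplier
spectrum, are not Lattes maps and are not elementarily equivalent. -/
def Counter (d : ℕ) (f g : P1 → P1) : Prop :=
  IsRat d f ∧ IsRat d g ∧ ¬ IsConjugate f g ∧ SameSpectrum f g ∧
    ¬ IsLattes f ∧ ¬ IsLattes g ∧ ¬ ElemEquiv f g

theorem Dat.counter {N r m : ℕ} {A B P Q : ℂ[X]} (D : Dat N r m A B P Q)
    (hF : FibOK N r m 2 A B) :
    Counter (r + m * N) (rm (C 1 * P) Q) (rm (C (-1) * P) Q) :=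
  ⟨D.isRat one_ne_zero, D.isRat (by norm_num),
    fun h => D.not_small ((D.inv2 hF).of_isConjugate h).2.1, D.sameSpectrum,
    (D.atInf one_ne_zero).not_isLattes D.hr2, (D.atInf (by norm_num)).not_isLattes D.hr2,
    fun h => D.not_small ((D.inv2 hF).of_elemEquiv D.odd_d (fun k hk h2 => by
      obtain ⟨j, hj⟩ := D.odd_d.of_dvd_nat hk
      omega) h).2.1⟩

end Pool.Agent.Lib.MP_af33d6_an.OD
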