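import Pool.Agent.Lib.MP_af33d6_an.OD.Odd

/-!
Quotient by the rotation of order five, and Moebius conjugation.
-/

open Polynomial Filter Topology OnePoint Set

namespace Pool.Agent.Lib.MP_af33d6_an.OD

lemma multCount_tsum (h : P1 → P1) (c : ℂ) : multCount h c = ∑' x, wt h c x := by
  classical
  unfold multCount
  refine (tsum_subtype {x : P1 | h x = x ∧ multiplier h x = c}
    (fun x => (fixMult h x : ENNReal))).trans (tsum_congr fun x => ?_)
  simp [wt, Set.indicator]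

lemma multCount_split (h : P1 → P1) (c : ℂ) :
    multCount h c = wt h c ∞ + (wt h c ((0 : ℂ) : P1) + Sfin h c) := by
  classical
  rw [multCount_eq, ENNReal.tsum_eq_add_tsum_ite (0 : ℂ), Sfin]
  congr 2
  rw [← Units.val_injective.tsum_eq]
  · simp
  · intro x hx
    have : x ≠ 0 := by rintro rfl; simp at hx
    exact ⟨Units.mk0 x this, rfl⟩

/-- the map `z ↦ z ^ 5` -/
noncomputable def pw : P1 → P1 := rm (X ^ 5) 1

@[simp] lemma pw_infty : pw ∞ = ∞ := rfl

@[simp] lemma pw_coe (z : ℂ) : pw (z : P1) = ((z ^ 5 : ℂ) : P1) := by simp [pw, pt]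

lemma pw_pt (a b : ℂ) : pw (pt a b) = pt (a ^ 5) (b ^ 5) := by
  by_cases hb : b = 0
  · simp [hb]
  · rw [pt_of_ne hb, pw_coe, pt_of_ne (pow_ne_zero _ hb), div_pow]

lemma wt_pw {h k : P1 → P1} (hh : RegFix h) (hk : RegFix k) (hc : ∀ x, k (pw x) = pw (h x))
    {z : ℂ} (hz : z ≠ 0) (e : h z = z) (c : ℂ) : wt k c ((z ^ 5 : ℂ) : P1) = wt h c (z : P1) := by
  have e' : k ((z ^ 5 : ℂ) : P1) = ((z ^ 5 : ℂ) : P1) := by rw [← pw_coe, hc, e]
  refine wt_congr e e' ?_ c
  have r := hh z hz e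
  have ea : aff h z = z := aff_of_eq e
  have ra := r.1
  refine local_conj (p := fun w => w ^ 5) (u := fun w => aff h w ^ 4 + aff h w ^ 3 * w +
    aff h w ^ 2 * w ^ 2 + aff h w * w ^ 3 + w ^ 4) r e (hk _ (pow_ne_zero _ hz) e')
    (by fun_prop) (by simpa using hz) (by fun_prop) ?_ ?_ ?_
  · simp only [ea]
    rw [show z ^ 4 + z ^ 3 * z + z ^ 2 * z ^ 2 + z * z ^ 3 + z ^ 4 = 5 * z ^ 4 by ring]
    simpa using hz
  · filter_upwards [r.2] with w hw
    apply aff_of_eq
    rw [← pw_coe, hc, hw, pw_coe]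
  · exact Eventually.of_forall fun w => by ring

lemma Sfin_pw {h k : P1 → P1} (hh : RegFix h) (hk : RegFix k) (hc : ∀ x, k (pw x) = pw (h x))
    {e : ℕ} (he : e = 2 ∨ e = 3) (hs : ∀ s : ℂ, s ^ 5 = 1 → ∀ x, h (sc s x) = sc (s ^ e) (h x))
    (c : ℂ) : Sfin k c = Sfin h c := by
  unfold Sfin
  have fix : ∀ (h : P1 → P1) (x : P1), wt h c x ≠ 0 → h x = x := fun h x hx => by
    by_contra e; exact hx (wt_of_ne e)
  refine tsum_eq_tsum_of_ne_zero_bij (fun z => (z : ℂˣ) ^ 5) ?_ ?_ ?_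
  · rintro ⟨z, hz⟩ ⟨y, hy⟩ e1
    have hz' := fix h _ hz
    have hy' := fix h _ hy
    have e2 : (z : ℂ) ^ 5 = (y : ℂ) ^ 5 := by exact_mod_cast congrArg Units.val e1
    have e3 : ((z : ℂ) / y) ^ 5 = 1 := by rw [div_pow, e2, div_self (pow_ne_zero _ y.ne_zero)]
    have e4 := hs _ e3 (y : ℂ)
    rw [hy', sc_coe, sc_coe, div_mul_cancel₀ _ y.ne_zero, hz', OnePoint.coe_eq_coe] at e4
    have e5 : (z : ℂ) / y = ((z : ℂ) / y) ^ e := by rw [div_eq_iff y.ne_zero]; exact e4
    have e6 : (z : ℂ) / y = 1 := by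
      generalize (z : ℂ) / y = s at e3 e5
      rcases he with rfl | rfl
      · linear_combination e3 + (1 + s + s ^ 2 + s ^ 3) * e5
      · linear_combination e3 + (1 + s ^ 2) * e5
    exact Subtype.ext (Units.ext ((div_eq_one_iff_eq y.ne_zero).1 e6))
  · intro w hw
    have hw' := fix k _ hw
    obtain ⟨z, hz⟩ := IsAlgClosed.exists_pow_nat_eq (w : ℂ) (n := 5) (by norm_num)
    have hz0 : z ≠ 0 := by rintro rfl; exact w.ne_zero (by simpa using hz.symm)
    have e1 := hc z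
    rw [pw_coe, hz, hw'] at e1
    obtain ⟨y, hy⟩ := OnePoint.ne_infty_iff_exists.1 (show h z ≠ ∞ by
      intro e; rw [e] at e1; simp at e1)
    rw [← hy, pw_coe, OnePoint.coe_eq_coe, ← hz] at e1
    have e3 : (y / z) ^ 5 = 1 := by rw [div_pow, ← e1, div_self (pow_ne_zero _ hz0)]
    obtain ⟨s, s1, s2⟩ : ∃ s : ℂ, s ^ 5 = 1 ∧ s ^ e * (y / z) = s := by
      generalize y / z = t at e3
      rcases he with rfl | rfl
      · exact ⟨t ^ 4, by rw [← pow_mul, mul_comm, pow_mul, e3, one_pow],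
          by linear_combination t ^ 4 * e3⟩
      · exact ⟨t ^ 2, by rw [← pow_mul, mul_comm, pow_mul, e3, one_pow],
          by linear_combination t ^ 2 * e3⟩
    have s0 : s * z ≠ 0 := mul_ne_zero (by rintro rfl; simp at s1) hz0
    have e4 : h ((s * z : ℂ) : P1) = ((s * z : ℂ) : P1) := by
      rw [← sc_coe, hs s s1, ← hy, sc_coe, sc_coe, OnePoint.coe_eq_coe]
      rw [← s2]
      nth_rewrite 1 [s2]
      field_simp
    have e5 : (s * z) ^ 5 = w := by rw [mul_pow, s1, one_mul, hz]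
    refine ⟨⟨Units.mk0 _ s0, ?_⟩, Units.ext e5⟩
    show wt h c ((s * z : ℂ) : P1) ≠ 0
    rw [← wt_pw hh hk hc s0 e4, e5]
    exact hw
  · rintro ⟨z, hz⟩
    exact wt_pw hh hk hc z.ne_zero (fix h _ hz) c

/-- a Moebius map -/
noncomputable def mob (a b c e : ℂ) (x : P1) : P1 :=
  OnePoint.elim x (pt a c) (fun z : ℂ => pt (a * z + b) (c * z + e))

@[simp] lemma mob_infty (a b c e : ℂ) : mob a b c e ∞ = pt a c := rfl

@[simp] lemma mob_coe (a b c e z : ℂ) : mob a b c e (z : P1) = pt (a * z + b) (c * z + e) := rfl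

lemma mob_pt (a b c e : ℂ) {u v : ℂ} (h : u ≠ 0 ∨ v ≠ 0) :
    mob a b c e (pt u v) = pt (a * u + b * v) (c * u + e * v) := by
  by_cases hv : v = 0
  · have hu : u ≠ 0 := by tauto
    rw [hv, pt_zero, mob_infty, mul_zero, mul_zero, add_zero, add_zero, mul_comm a, mul_comm c,
      pt_mul hu]
  · rw [pt_of_ne hv, mob_coe, ← pt_mul hv]
    congr 1 <;> field_simp

lemma wt_mob {h k : P1 → P1} {a b c e z : ℂ} (hdet : a * e - b * c ≠ 0)
    (hc : ∀ x, k (mob a b c e x) = mob a b c e (h x)) (r : Reg h z) (hfix : h z = z)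
    (hz : c * z + e ≠ 0) (rk : Reg k ((a * z + b) / (c * z + e))) (t : ℂ) :
    wt k t (mob a b c e z) = wt h t (z : P1) := by
  have e' : k (mob a b c e z) = mob a b c e z := by rw [hc, hfix]
  rw [mob_coe, pt_of_ne hz] at e' ⊢
  refine wt_congr hfix e' ?_ t
  have ea : aff h z = z := aff_of_eq hfix
  have ra := r.1
  have n1 : ∀ᶠ w in 𝓝 z, c * w + e ≠ 0 :=
    (by fun_prop : ContinuousAt (fun w => c * w + e) z).eventually_ne hz
  have n2 : ∀ᶠ w in 𝓝 z, c * aff h w + e ≠ 0 :=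
    (show ContinuousAt (fun w => c * aff h w + e) z from
      (continuousAt_const.mul ra.continuousAt).add continuousAt_const).eventually_ne
      (by simpa only [ea] using hz)
  refine local_conj (p := fun w => (a * w + b) / (c * w + e))
    (u := fun w => (a * e - b * c) / ((c * aff h w + e) * (c * w + e))) r hfix rk
    (AnalyticAt.div (by fun_prop) (by fun_prop) hz) ?_
    (AnalyticAt.div (by fun_prop) (by fun_prop) (by simpa only [ea] using mul_ne_zero hz hz))
    (by simpa only [ea] using div_ne_zero hdet (mul_ne_zero hz hz)) ?_ ?_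
  · have h1 : HasDerivAt (fun w => (a * w + b) / (c * w + e))
        ((a * 1 * (c * z + e) - (a * z + b) * (c * 1)) / (c * z + e) ^ 2) z :=
      (((hasDerivAt_id z).const_mul a).add_const b).div
        (((hasDerivAt_id z).const_mul c).add_const e) hz
    rw [h1.deriv]
    exact div_ne_zero (fun h0 => hdet (by linear_combination h0)) (pow_ne_zero _ hz)
  · filter_upwards [r.2, n1, n2] with w h1 h2 h3
    apply aff_of_eq
    rw [← pt_of_ne h2, ← mob_coe, hc, h1, mob_coe, pt_of_ne h3]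
  · filter_upwards [n1, n2] with w h2 h3
    rw [div_sub_div _ _ h3 h2, ← mul_div_assoc]
    congr 1
    ring

lemma AtInf.comp_self {f : P1 → P1} {k : ℕ} (h : AtInf f k) : AtInf (f ∘ f) (k * k) := by
  obtain ⟨h0, ρ, h1, h2, h3⟩ := h
  have h4 : ρ 0 = 0 := by
    have := h3.self_of_nhds
    rw [inv_zero', h0, inv_infty] at this
    exact (OnePoint.coe_injective this).symm
  have h5 : AnalyticAt ℂ ρ (ρ 0) := by rwa [h4]
  refine ⟨by simp [h0], ρ ∘ ρ, h5.comp h1, ?_, ?_⟩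
  · rw [AnalyticAt.analyticOrderAt_comp h5 h1, h4, h2]
    simp [h2]
  · have htend : Tendsto ρ (𝓝 0) (𝓝 0) := by
      have := h1.continuousAt.tendsto
      rwa [h4] at this
    filter_upwards [h3, htend.eventually h3] with t a b
    rw [Function.comp, Function.comp, ← b, ← a, inv_inv']

lemma isLattes_comp_self {f : P1 → P1} (h : IsLattes f) : IsLattes (f ∘ f) := by
  obtain ⟨Λ, L, a, b, Θ, hL, h1, h2, h3⟩ := h
  refine ⟨Λ, L ∘ L, a * a, a * b + b, Θ, fun z => ?_, h1, h2, ?_⟩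
  · rw [Function.comp, hL, hL]
    congr 1
    ring
  · rw [Function.comp_assoc, h3, ← Function.comp_assoc, h3, Function.comp_assoc]

end Pool.Agent.Lib.MP_af33d6_an.OD
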