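import Pool.Agent.Lib.MP_af33d6_an.OD.RH

/-!
An invariant of elementary equivalence read from the sizes of fibres.
-/

open Polynomial Filter Topology OnePoint Set

namespace Pool.Agent.Lib.MP_af33d6_an.OD

lemma nf_semiconj {h k m : P1 → P1} (hm : Function.Bijective m) (hc : m ∘ h = k ∘ m) (x : P1) :
    k ⁻¹' {m x} = m '' (h ⁻¹' {x}) := by
  ext y
  obtain ⟨z, rfl⟩ := hm.2 y
  have := congrFun hc z
  simp only [Function.comp] at this
  simp [← this, hm.1.eq_iff]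

lemma nf_conj {h k m : P1 → P1} (hm : Function.Bijective m) (hc : m ∘ h = k ∘ m) (x : P1) :
    nf k (m x) = nf h x := by
  rw [nf, nf, nf_semiconj hm hc, Set.ncard_image_of_injective _ hm.1]

lemma genDeg_conj {h k m : P1 → P1} (hm : Function.Bijective m) (hc : m ∘ h = k ∘ m) {d : ℕ}
    (hg : GenDeg h d) : GenDeg k d := by
  unfold GenDeg at *
  rw [Filter.eventually_cofinite] at *
  refine (hg.image m).subset fun y hy => ?_
  obtain ⟨z, rfl⟩ := hm.2 y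
  refine ⟨z, ?_, rfl⟩
  rw [mem_ofPred_eq, nf_semiconj hm hc, hm.1.encard_image] at hy
  exact hy

lemma conj_symm {h k m : P1 → P1} (hm : Function.Bijective m) (hc : m ∘ h = k ∘ m) :
    ∃ m' : P1 → P1, Function.Bijective m' ∧ m' ∘ k = h ∘ m' := by
  refine ⟨(Equiv.ofBijective m hm).symm, (Equiv.ofBijective m hm).symm.bijective, ?_⟩
  funext y
  obtain ⟨z, rfl⟩ := hm.2 y
  have := congrFun hc z
  simp only [Function.comp] at this ⊢
  rw [← this, Equiv.ofBijective_symm_apply_apply, Equiv.ofBijective_symm_apply_apply]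

/-- some fixed point has fewer than `d / t` preimages -/
def Small (t d : ℕ) (h : P1 → P1) : Prop := ∃ x, h x = x ∧ t * nf h x < d

/-- lower bounds for the sizes of all fibres -/
def Big (d e : ℕ) (h : P1 → P1) : Prop :=
  ∃ p q o : P1, p ≠ q ∧ p ≠ o ∧ q ≠ o ∧ (∀ c, c ≠ p → c ≠ q → c ≠ o → d ≤ nf h c + e) ∧
    d ≤ 2 * nf h p + e ∧ d ≤ 2 * nf h q + e ∧ d ≤ 2 * nf h o

lemma Small.conj {h k m : P1 → P1} (hm : Function.Bijective m) (hc : m ∘ h = k ∘ m) {t d : ℕ}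
    (hs : Small t d h) : Small t d k := by
  obtain ⟨x, h1, h2⟩ := hs
  refine ⟨m x, ?_, by rwa [nf_conj hm hc]⟩
  have := congrFun hc x
  simp only [Function.comp] at this
  rw [← this, h1]

lemma Big.conj {h k m : P1 → P1} (hm : Function.Bijective m) (hc : m ∘ h = k ∘ m) {d e : ℕ}
    (hs : Big d e h) : Big d e k := by
  obtain ⟨p, q, o, h1, h2, h3, h4, h5, h6, h7⟩ := hs
  refine ⟨m p, m q, m o, hm.1.ne h1, hm.1.ne h2, hm.1.ne h3, ?_, ?_, ?_, ?_⟩
  · intro c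
    obtain ⟨c, rfl⟩ := hm.2 c
    rw [nf_conj hm hc]
    exact fun a b c' => h4 c (fun e => a (by rw [e])) (fun e => b (by rw [e]))
      (fun e => c' (by rw [e]))
  all_goals rwa [nf_conj hm hc]

/-- a map with large fibres is indecomposable -/
lemma Big.indec {d₁ d₂ e : ℕ} {h₁ h₂ : P1 → P1} (r1 : IsRat d₁ h₁) (r2 : IsRat d₂ h₂)
    (hodd : Odd (d₁ * d₂)) (he : 2 ≤ d₂ → e < d₂) (hb : Big (d₁ * d₂) e (h₁ ∘ h₂)) :
    d₁ = 1 ∨ d₂ = 1 := by
  classical
  by_contra! hne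
  obtain ⟨⟨a, ha⟩, ⟨b, hb'⟩⟩ := Nat.odd_mul.1 hodd
  have g1 : 1 ≤ d₁ := by omega
  have g2 : 3 ≤ d₂ := by omega
  have g3 : 3 ≤ d₁ := by omega
  have he' := he (by omega)
  obtain ⟨p, q, o, h1, h2, h3, h4, h5, h6, h7⟩ := hb
  have up := nf_comp_le r1 r2 g1 (by omega)
  have k1 : ∀ c, d₁ * d₂ ≤ 2 * nf (h₁ ∘ h₂) c + e → d₁ + 1 ≤ 2 * nf h₁ c := by
    intro c hc
    by_contra! hlt
    have t1 : 2 * nf h₁ c + 1 ≤ d₁ := by omega
    have t2 := up c
    nlinarith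
  have k2 := rh r1 g1 {p, q, o} (by
    intro c hc
    simp only [Finset.mem_insert, Finset.mem_singleton, not_or] at hc
    by_contra! hlt
    have t1 := h4 c hc.1 hc.2.1 hc.2.2
    have t2 := up c
    have t3 : nf h₁ c + 1 ≤ d₁ := hlt
    nlinarith)
  rw [Finset.sum_insert (by simp [h1, h2]), Finset.sum_pair h3,
    Finset.card_insert_of_notMem (by simp [h1, h2]), Finset.card_pair h3] at k2
  have k3 := k1 p h5
  have k4 := k1 q h6
  have k5 : nf h₁ o ≤ 1 := by omega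
  have k6 := up o
  nlinarith

/-- the invariant -/
def Inv2 (t d e : ℕ) (h : P1 → P1) : Prop := GenDeg h d ∧ Small t d h ∧ (d.Prime ∨ Big d e h)

lemma Inv2.conj {h k m : P1 → P1} (hm : Function.Bijective m) (hc : m ∘ h = k ∘ m) {t d e : ℕ}
    (hs : Inv2 t d e h) : Inv2 t d e k :=
  ⟨genDeg_conj hm hc hs.1, hs.2.1.conj hm hc, hs.2.2.imp_right fun hb => hb.conj hm hc⟩

lemma Inv2.of_elemTransf {t d e : ℕ} (hodd : Odd d) (he : ∀ k, k ∣ d → 2 ≤ k → e < k)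
    {f g : P1 → P1} (hfg : ElemTransf f g) (hf : Inv2 t d e f) : Inv2 t d e g := by
  obtain ⟨d₁, d₂, h₁, h₂, r1, r2, rfl, rfl⟩ := hfg
  obtain rfl : d₁ * d₂ = d := (r1.genDeg.comp r2.genDeg).unique hf.1
  have : d₁ = 1 ∨ d₂ = 1 := by
    rcases hf.2.2 with hp | hb
    · rcases Nat.prime_mul_iff.1 hp with ⟨-, h⟩ | ⟨-, h⟩
      · exact Or.inr h
      · exact Or.inl h
    · exact hb.indec r1 r2 hodd (he d₂ (Dvd.intro_left _ rfl))
  rcases this with rfl | rfl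
  · obtain ⟨m', hm', hc⟩ := conj_symm (m := h₁) (h := h₂ ∘ h₁) (k := h₁ ∘ h₂) r1.bijective rfl
    exact hf.conj hm' hc
  · exact Inv2.conj (m := h₂) (h := h₁ ∘ h₂) (k := h₂ ∘ h₁) r2.bijective rfl hf

lemma Inv2.of_elemEquiv {t d e : ℕ} (hodd : Odd d) (he : ∀ k, k ∣ d → 2 ≤ k → e < k)
    {f g : P1 → P1} (hfg : ElemEquiv f g) (hf : Inv2 t d e f) : Inv2 t d e g := by
  induction hfg with
  | refl => exact hf
  | tail _ h ih => exact ih.of_elemTransf hodd he h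

lemma Inv2.of_isConjugate {t d e : ℕ} {f g : P1 → P1} (hfg : IsConjugate f g)
    (hf : Inv2 t d e f) : Inv2 t d e g := by
  obtain ⟨m, hm, hc⟩ := hfg
  exact hf.conj hm.bijective hc

end Pool.Agent.Lib.MP_af33d6_an.OD
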