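import Pool.Agent.Lib.MP_af33d6_an.OD.Inv

/-!
A map with a superattracting fixed point at infinity is not a Lattes map.
-/

open Polynomial Filter Topology OnePoint Set

namespace Pool.Agent.Lib.MP_af33d6_an.OD

theorem not_isLattes_gen {f : P1 → P1} (hinf : f ∞ = ∞) (r : ℂ → ℂ) (hr : AnalyticAt ℂ r 0)
    {k : ℕ} (hk : 2 ≤ k) (hord : analyticOrderAt r 0 = k)
    (hloc : ∀ᶠ t : ℂ in 𝓝 (0 : ℂ), inv (f (inv ((t : ℂ) : P1))) = ((r t : ℂ) : P1)) : ¬ IsLattes f := by
  rintro ⟨Λ, L, a, b, Θ, hL, hhol, hfin, hcomm⟩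
  set θ : ℂ → P1 := fun z => Θ (Submodule.Quotient.mk z) with hθ
  have hper : ∀ z w, w ∈ Λ.lattice → θ (z + w) = θ z := by
    intro z w hw
    simp only [hθ]
    congr 1
    rw [Submodule.Quotient.eq]
    simpa using hw
  have hfun : ∀ z, θ (a * z + b) = f (θ z) := by
    intro z
    have := congrFun hcomm (Submodule.Quotient.mk z)
    simp only [Function.comp, hL] at this
    exact this.symm
  have hlat : Countable Λ.lattice := Λ.latticeEquivProd.toEquiv.countable_iff.2 inferInstance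
  have hcount : ∀ y, (θ ⁻¹' {y}).Countable := by
    intro y
    have : θ ⁻¹' {y} ⊆ ⋃ e ∈ Θ ⁻¹' {y}, Set.range (fun l : Λ.lattice => (l : ℂ) + Quotient.out e) := by
      intro z hz
      simp only [mem_iUnion, mem_range]
      refine ⟨Submodule.Quotient.mk z, hz,
        ⟨z - Quotient.out (Submodule.Quotient.mk z : ℂ ⧸ Λ.lattice), ?_⟩, by simp⟩
      rw [← Submodule.Quotient.eq, Submodule.Quotient.mk_out]
    exact ((hfin y).countable.biUnion fun e _ => Set.countable_range _).mono this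
  have hnc : ∀ y z₀, ¬ ∀ᶠ z in 𝓝 z₀, θ z = y := by
    intro y z₀ h
    obtain ⟨z, hz1, hz2⟩ := ((hcount y).dense_compl ℂ).inter_nhds_nonempty h
    exact hz1 hz2
  -- there is a pole
  have hpole : ∃ z, θ z = ∞ := by
    by_contra! hno
    have hdiff : Differentiable ℂ (fun z => toC (θ z)) := by
      intro z₀
      obtain ⟨u, hu, h1 | h1⟩ := hhol z₀
      · refine hu.differentiableAt.congr_of_eventuallyEq ?_
        filter_upwards [h1] with z hz
        simp [hz]
      · have hne : ∀ᶠ z in 𝓝 z₀, u z ≠ 0 := by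
          filter_upwards [h1] with z hz h0
          rw [h0, inv_eq_iff, inv_zero'] at hz
          exact hno z hz
        refine (hu.inv hne.self_of_nhds).differentiableAt.congr_of_eventuallyEq ?_
        filter_upwards [h1, hne] with z hz h0
        rw [inv_eq_iff, inv_coe_of_ne h0] at hz
        simp [hz]
    have hb := (IsZLattice.isCompact_range_of_periodic Λ.lattice _ hdiff.continuous
      (fun z w hw => by simp only [hper z w hw])).isBounded
    apply hnc (θ 0) 0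
    refine Eventually.of_forall fun z => ?_
    have h1 := hdiff.apply_eq_apply_of_bounded hb z 0
    obtain ⟨p, hp⟩ := OnePoint.ne_infty_iff_exists.1 (hno z)
    obtain ⟨q, hq⟩ := OnePoint.ne_infty_iff_exists.1 (hno 0)
    simp only [← hp, ← hq, toC_coe] at h1 ⊢
    rw [h1]
  set v : ℂ → ℂ := fun z => toC (inv (θ z)) with hv
  have hvloc : ∀ z₀, θ z₀ = ∞ → AnalyticAt ℂ v z₀ ∧ (∀ᶠ z in 𝓝 z₀, θ z = inv ((v z : ℂ) : P1)) := by
    intro z₀ hz₀
    obtain ⟨u, hu, h1 | h1⟩ := hhol z₀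
    · have := h1.self_of_nhds
      rw [hz₀] at this
      exact absurd this (by simp)
    · have e : u =ᶠ[𝓝 z₀] v := by
        filter_upwards [h1] with z hz
        simp [hv, hz]
      refine ⟨hu.congr e, ?_⟩
      filter_upwards [h1, e] with z hz he
      rw [← he, ← hz, inv_inv']
  have hv0 : ∀ z₀, θ z₀ = ∞ → v z₀ = 0 := by
    intro z₀ hz₀; simp [hv, hz₀]
  have hk0 : ∀ z₀, θ z₀ = ∞ → analyticOrderAt v z₀ ≠ 0 := fun z₀ hz₀ =>
    (hvloc z₀ hz₀).1.analyticOrderAt_ne_zero.2 (hv0 z₀ hz₀)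
  have hktop : ∀ z₀, θ z₀ = ∞ → analyticOrderAt v z₀ ≠ ⊤ := by
    intro z₀ hz₀ h
    rw [analyticOrderAt_eq_top] at h
    apply hnc ∞ z₀
    filter_upwards [h, (hvloc z₀ hz₀).2] with z h1 h2
    rw [h2, h1, inv_zero']
  have hkper : ∀ z w, w ∈ Λ.lattice → analyticOrderAt v (z + w) = analyticOrderAt v z := by
    intro z w hw
    have h1 : analyticOrderAt (v ∘ fun t => t + w) z = analyticOrderAt v (z + w) :=
      analyticOrderAt_comp_of_deriv_ne_zero (g := fun t => t + w) (by fun_prop) (by simp)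
    rw [← h1]
    congr 1
    funext t
    simp only [Function.comp, hv, hper t w hw]
  have hstep : ∀ z₀, θ z₀ = ∞ → analyticOrderAt v (a * z₀ + b) = k * analyticOrderAt v z₀ := by
    intro z₀ hz₀
    obtain ⟨hva, hvl⟩ := hvloc z₀ hz₀
    have htend : Tendsto v (𝓝 z₀) (𝓝 0) := by
      have := hva.continuousAt.tendsto
      rwa [hv0 z₀ hz₀] at this
    have e : (v ∘ fun t => a * t + b) =ᶠ[𝓝 z₀] r ∘ v := by
      filter_upwards [hvl, htend.eventually hloc] with z h1 h2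
      show toC (inv (θ (a * z + b))) = r (v z)
      rw [hfun, h1, h2, toC_coe]
    have h3 : analyticOrderAt (r ∘ v) z₀ = k * analyticOrderAt v z₀ := by
      rw [AnalyticAt.analyticOrderAt_comp (by rwa [hv0 z₀ hz₀]) hva, hv0 z₀ hz₀, hord]
      simp
    rw [← h3, ← analyticOrderAt_congr e]
    by_cases ha : a = 0
    · exfalso
      have h4 : analyticOrderAt (v ∘ fun t => a * t + b) z₀ = ⊤ := by
        rw [analyticOrderAt_eq_top]
        refine Eventually.of_forall fun t => ?_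
        have h5 : θ b = ∞ := by simpa [ha, hz₀, hinf] using hfun z₀
        simpa [ha] using hv0 b h5
      rw [analyticOrderAt_congr e, h3] at h4
      obtain ⟨n, hn⟩ := ENat.ne_top_iff_exists.1 (hktop _ hz₀)
      rw [← hn] at h4
      exact absurd h4 (by norm_cast)
    · exact (analyticOrderAt_comp_of_deriv_ne_zero (g := fun t => a * t + b) (by fun_prop)
        (by simpa using ha)).symm
  have hout : ∀ z, analyticOrderAt v (Quotient.out (Submodule.Quotient.mk z : ℂ ⧸ Λ.lattice)) =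
      analyticOrderAt v z := by
    intro z
    have := hkper z (Quotient.out (Submodule.Quotient.mk z : ℂ ⧸ Λ.lattice) - z) (by
      rw [← Submodule.Quotient.eq, Submodule.Quotient.mk_out])
    rwa [add_sub_cancel] at this
  obtain ⟨z₀, hz₀⟩ := hpole
  obtain ⟨e, he, hmax⟩ := Set.exists_max_image (Θ ⁻¹' {∞})
    (fun e => analyticOrderAt v (Quotient.out e)) (hfin ∞) ⟨Submodule.Quotient.mk z₀, hz₀⟩
  have hz₁ : θ (Quotient.out e) = ∞ := by
    simp only [hθ, Submodule.Quotient.mk_out]; exact he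
  have hz₂ : θ (a * Quotient.out e + b) = ∞ := by rw [hfun, hz₁, hinf]
  have h1 := hmax (Submodule.Quotient.mk (a * Quotient.out e + b)) hz₂
  simp only [hout, hstep _ hz₁] at h1
  obtain ⟨n, hn⟩ := ENat.ne_top_iff_exists.1 (hktop _ hz₁)
  have h2 := hk0 _ hz₁
  rw [← hn] at h1 h2
  norm_cast at h1 h2
  have h3 : 1 ≤ n := Nat.one_le_iff_ne_zero.2 h2
  nlinarith

/-- local form at infinity: a fixed point of local degree `k` -/
def AtInf (f : P1 → P1) (k : ℕ) : Prop :=
  f ∞ = ∞ ∧ ∃ ρ : ℂ → ℂ, AnalyticAt ℂ ρ 0 ∧ analyticOrderAt ρ 0 = k ∧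
    ∀ᶠ t : ℂ in 𝓝 (0 : ℂ), inv (f (inv ((t : ℂ) : P1))) = ((ρ t : ℂ) : P1)

lemma AtInf.not_isLattes {f : P1 → P1} {k : ℕ} (h : AtInf f k) (hk : 2 ≤ k) : ¬ IsLattes f := by
  obtain ⟨h0, ρ, h1, h2, h3⟩ := h
  exact not_isLattes_gen h0 ρ h1 hk h2 h3

lemma AtInf.sa {f : P1 → P1} {k : ℕ} (h : AtInf f k) (hk : 2 ≤ k) : SA (inv ∘ f ∘ inv) 0 := by
  obtain ⟨h0, ρ, h1, h2, h3⟩ := h
  refine ⟨Reg.of_eventually h1 h3, by simp [h0], ?_⟩
  rw [(aff_eventually (h := inv ∘ f ∘ inv) h3).deriv_eq]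
  by_contra hne
  have h4 : ρ 0 = 0 := by
    have := h3.self_of_nhds
    rw [inv_zero', h0, inv_infty] at this
    exact (OnePoint.coe_injective this).symm
  have := h1.analyticOrderAt_eq_one_of_zero_deriv_ne_zero h4 hne
  rw [h2] at this
  norm_cast at this
  omega

open Classical in
lemma AtInf.wt {f : P1 → P1} {k : ℕ} (h : AtInf f k) (hk : 2 ≤ k) {n : ℕ} (hn : 1 ≤ n) (c : ℂ) :
    wt f^[n] c ∞ = if c = 0 then 1 else 0 := by
  rw [wt_infty, inv_iterate_inv, ((h.sa hk).iterate hn).wt]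

lemma eval_rev (P : ℂ[X]) {t : ℂ} (ht : t ≠ 0) :
    P.reverse.eval t = t ^ P.natDegree * P.eval t⁻¹ := by
  let : Invertible t⁻¹ := invertibleOfNonzero (inv_ne_zero ht)
  have h := eval₂_reverse_mul_pow (RingHom.id ℂ) t⁻¹ P
  rw [invOf_eq_inv, inv_inv, eval₂_id, eval₂_id] at h
  rw [← h, inv_pow, mul_comm, mul_assoc, inv_mul_cancel₀ (pow_ne_zero _ ht), mul_one]

lemma atInf_rm {P Q : ℂ[X]} {k : ℕ} (hk : 1 ≤ k) (hQ : Q ≠ 0) (hd : P.natDegree = Q.natDegree + k)
    (hc : ∀ z, P.eval z ≠ 0 ∨ Q.eval z ≠ 0) : AtInf (rm P Q) k := by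
  have hP : P ≠ 0 := by rintro rfl; simp at hd; omega
  have p0 : P.reverse.eval 0 ≠ 0 := by
    rw [← coeff_zero_eq_eval_zero, coeff_zero_reverse]; exact leadingCoeff_ne_zero.2 hP
  have q0 : Q.reverse.eval 0 ≠ 0 := by
    rw [← coeff_zero_eq_eval_zero, coeff_zero_reverse]; exact leadingCoeff_ne_zero.2 hQ
  have hu : AnalyticAt ℂ (fun t : ℂ => Q.reverse.eval t / P.reverse.eval t) 0 :=
    (analyticAt_eval _ _).div (analyticAt_eval _ _) p0
  have ha : AnalyticAt ℂ (fun t : ℂ => t ^ k * (Q.reverse.eval t / P.reverse.eval t)) 0 :=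
    AnalyticAt.mul (by fun_prop) hu
  refine ⟨rfl, _, ha, ?_, ?_⟩
  · refine (ha.analyticOrderAt_eq_natCast (n := k)).2 ⟨_, hu, div_ne_zero q0 p0, ?_⟩
    exact Eventually.of_forall fun t => by simp
  · filter_upwards [(analyticAt_eval P.reverse 0).continuousAt.eventually_ne p0] with t ht
    by_cases h0 : t = 0
    · simp [h0, show k ≠ 0 by omega]
    · rw [inv_coe_of_ne h0, rm_coe, inv_pt (hc _), pt_eq_coe]
      rw [eval_rev P h0] at ht ⊢
      rw [eval_rev Q h0, hd]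
      have h1 := right_ne_zero_of_mul ht
      refine ⟨h1, ?_⟩
      generalize eval t⁻¹ P = x at *
      generalize eval t⁻¹ Q = y at *
      rw [pow_add]
      field_simp

end Pool.Agent.Lib.MP_af33d6_an.OD
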