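import Pool.Agent.Lib.MP_af33d6_an.OD.Fib

/-!
Counterexamples in all odd degrees not of the form `2 ^ k ± 1`.
-/

open Polynomial Filter Topology OnePoint Set

namespace Pool.Agent.Lib.MP_af33d6_an.OD

lemma exists_half {k u : ℕ} (hu : ¬ 2 ^ k ∣ u) : ∃ s : ℂ, s ^ 2 ^ k = 1 ∧ s ^ u = -1 := by
  have hu0 : u ≠ 0 := by rintro rfl; exact hu (dvd_zero _)
  obtain ⟨v, w, hw, rfl⟩ := Nat.exists_eq_two_pow_mul_odd hu0
  have hv : v < k := by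
    by_contra! h
    exact hu ((pow_dvd_pow 2 h).mul_right w)
  obtain ⟨s, hs⟩ := IsAlgClosed.exists_pow_nat_eq (-1 : ℂ) (n := 2 ^ v) (by positivity)
  obtain ⟨j, rfl⟩ := Nat.exists_eq_add_of_lt hv
  refine ⟨s, ?_, by rw [pow_mul, hs, hw.neg_one_pow]⟩
  rw [add_assoc, pow_add, pow_mul, hs, pow_succ, mul_comm, pow_mul]
  simp

lemma not_dvd_mul_odd {k u w : ℕ} (hu : ¬ 2 ^ k ∣ u) (hw : Odd w) : ¬ 2 ^ k ∣ u * w := fun h =>
  hu ((Nat.Coprime.pow_left k (Nat.coprime_two_left.2 hw)).dvd_of_dvd_mul_right h)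

lemma pow_sub_one_odd {r n : ℕ} (hr : Odd r) (hn : Odd n) :
    ∃ w, Odd w ∧ r ^ n = (r - 1) * w + 1 := by
  obtain ⟨a, rfl⟩ := hr
  obtain ⟨b, rfl⟩ := hn
  rw [Nat.add_sub_cancel]
  induction b with
  | zero => exact ⟨1, odd_one, by ring⟩
  | succ b ih =>
    obtain ⟨w, ⟨c, rfl⟩, h⟩ := ih
    refine ⟨2 * ((2 * c + 1) * (2 * a ^ 2 + 2 * a) + c + a + 1) + 1, ⟨_, rfl⟩, ?_⟩
    rw [show 2 * (b + 1) + 1 = 2 * b + 1 + 2 by ring, pow_add, h]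
    ring

lemma pow_add_one_odd {r n : ℕ} (hr : Odd r) (hn : Odd n) :
    ∃ w, Odd w ∧ r ^ n + 1 = (r + 1) * w := by
  obtain ⟨a, rfl⟩ := hr
  obtain ⟨b, rfl⟩ := hn
  induction b with
  | zero => exact ⟨1, odd_one, by ring⟩
  | succ b ih =>
    obtain ⟨w, ⟨c, rfl⟩, h⟩ := ih
    refine ⟨2 * (a * (2 * a + 1) ^ (2 * b + 1) + c) + 1, ⟨_, rfl⟩, ?_⟩
    rw [show 2 * (b + 1) + 1 = 2 * b + 1 + 2 by ring, pow_add]
    nlinarith

lemma half_one {k r : ℕ} (hr : Odd r) (h : ¬ 2 ^ k ∣ r - 1) (n : ℕ) (hn : Odd n) :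
    ∃ s : ℂ, s ^ 2 ^ k = 1 ∧ -1 * s ^ r ^ n = s := by
  obtain ⟨w, hw, e⟩ := pow_sub_one_odd hr hn
  obtain ⟨s, h1, h2⟩ := exists_half (not_dvd_mul_odd h hw)
  exact ⟨s, h1, by rw [e, pow_succ, h2]; ring⟩

lemma half_two {k r : ℕ} (hr : Odd r) (h : ¬ 2 ^ k ∣ r + 1) (n : ℕ) (hn : Odd n) :
    ∃ s : ℂ, s ^ 2 ^ k = 1 ∧ s * (-1 * s ^ r ^ n) = 1 := by
  obtain ⟨w, hw, e⟩ := pow_add_one_odd hr hn
  obtain ⟨s, h1, h2⟩ := exists_half (not_dvd_mul_odd h hw)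
  rw [← e, pow_succ] at h2
  exact ⟨s, h1, by linear_combination -h2⟩

lemma four_le {k r : ℕ} (hr : Odd r) (h : ¬ 2 ^ k ∣ r + 1) : Even (2 ^ k) ∧ 4 ≤ 2 ^ k := by
  obtain ⟨a, rfl⟩ := hr
  rcases k with _ | _ | k
  · simp at h
  · exact absurd ⟨a + 1, by ring⟩ h
  · refine ⟨⟨2 ^ (k + 1), by ring⟩, ?_⟩
    have : 1 ≤ 2 ^ k := Nat.one_le_two_pow
    rw [pow_succ, pow_succ]
    omega

lemma dat_one {k r : ℕ} (hr : Odd r) (h1 : 1 < r) (h2 : r + 1 < 2 ^ k) :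
    Dat0 (2 ^ k) r 1 (C ((2 ^ k : ℕ) - r : ℂ) * X + C ((2 ^ k : ℕ) + r : ℂ))
      (C ((2 ^ k : ℕ) + r : ℂ) * X + C ((2 ^ k : ℕ) - r : ℂ)) := by
  have g1 : ¬ 2 ^ k ∣ r - 1 := Nat.not_dvd_of_pos_of_lt (by omega) (by omega)
  have g2 : ¬ 2 ^ k ∣ r + 1 := Nat.not_dvd_of_pos_of_lt (by omega) h2
  have hc : Nat.Coprime r (2 ^ k) := Nat.Coprime.pow_right k (Nat.coprime_two_right.2 hr)
  have p1 := half_one hr g1
  have p2 := half_two hr g2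
  obtain ⟨p3, p4⟩ := four_le hr g2
  generalize 2 ^ k = N at *
  have ha : (N : ℂ) - r ≠ 0 := by
    rw [sub_ne_zero]; exact_mod_cast (by omega : N ≠ r)
  have hb : (N : ℂ) + r ≠ 0 := by exact_mod_cast (by omega : N + r ≠ 0)
  have hN : (N : ℂ) ≠ 0 := by exact_mod_cast (by omega : N ≠ 0)
  have hr0 : (r : ℂ) ≠ 0 := by exact_mod_cast (by omega : r ≠ 0)
  refine ⟨p3, p4, hr, h1, by omega, hc, p1, p2, natDegree_linear ha, natDegree_linear hb,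
    fun u hu => ?_, by simpa using hb, by simpa using ha, fun u => ?_, fun u _ => by simpa using hb,
    ?_⟩
  · simp only [eval_add, eval_mul, eval_C, eval_X]
    field_simp
    ring
  · simp only [eval_add, eval_mul, eval_C, eval_X]
    by_contra! h
    apply mul_ne_zero hN hr0
    linear_combination ((N + r : ℂ) * h.1 - (N - r : ℂ) * h.2) / 4
  · simp only [crit, eval_add, eval_mul, eval_C, eval_X, eval_sub, derivative_add, derivative_mul,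
      derivative_C, derivative_X, eval_zero, eval_one]
    ring

lemma split_deg {d : ℕ} (hd : 1 < d) (ho : Odd d) : ∃ k r, Odd r ∧ r < 2 ^ (k + 1) ∧
    d = 2 ^ (k + 1) + r := by
  have h1 := Nat.pow_log_le_self 2 (by omega : d ≠ 0)
  have h2 := Nat.lt_pow_succ_log_self (by norm_num : 1 < 2) d
  have h3 : 0 < Nat.log 2 d := Nat.log_pos (by norm_num) hd
  obtain ⟨k, hk⟩ := Nat.exists_eq_succ_of_ne_zero h3.ne'
  rw [hk, Nat.succ_eq_add_one] at h1 h2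
  rw [pow_succ 2 (k + 1)] at h2
  refine ⟨k, d - 2 ^ (k + 1), ?_, by omega, by omega⟩
  exact Nat.Odd.sub_even h1 ho ⟨2 ^ k, by ring⟩

theorem odd_degree {d : ℕ} (ho : Odd d) (h : ∀ k, d + 1 ≠ 2 ^ k ∧ d ≠ 2 ^ k + 1) :
    ∃ f g, Counter d f g := by
  have hd : 1 < d := by
    obtain ⟨a, rfl⟩ := ho
    have := (h 1).1
    omega
  obtain ⟨k, r, hr, h1, rfl⟩ := split_deg hd ho
  have h2 := (h (k + 1)).2
  have h3 := (h (k + 2)).1
  rw [pow_succ 2 (k + 1)] at h3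
  have D := dat_one (k := k + 1) hr (by obtain ⟨a, rfl⟩ := hr; omega) (by omega)
  obtain ⟨P, Q, D'⟩ := D.exists_PQ
  have := D'.counter D.fibOK
  rw [one_mul, add_comm] at this
  exact ⟨_, _, this⟩

end Pool.Agent.Lib.MP_af33d6_an.OD
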