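import Pool.Agent.Lib.MP_af33d6_an.OD.Lat

/-!
Palindromic polynomials as polynomials in `z + 1 / z`.
-/

open Polynomial Filter Topology OnePoint Set

namespace Pool.Agent.Lib.MP_af33d6_an.OD

lemma exists_add_inv (w : ℂ) : ∃ z : ℂ, z ≠ 0 ∧ z + z⁻¹ = w := by
  obtain ⟨s, hs⟩ := IsAlgClosed.exists_eq_mul_self (w ^ 2 - 4)
  have h0 : (w + s) / 2 ≠ 0 := by
    intro e
    have : s = -w := by linear_combination 2 * e
    rw [this] at hs
    have : (4 : ℂ) = 0 := by linear_combination -hs
    norm_num at this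
  refine ⟨_, h0, ?_⟩
  have : ((w + s) / 2)⁻¹ = (w - s) / 2 := by
    apply inv_eq_of_mul_eq_one_right
    linear_combination hs / 4
  rw [this]; ring

lemma pal (d : ℕ) (S : ℂ[X]) (hS : S.natDegree ≤ 2 * d)
    (hp : ∀ z : ℂ, z ≠ 0 → z ^ (2 * d) * S.eval z⁻¹ = S.eval z) :
    ∃ P : ℂ[X], ∀ z : ℂ, z ≠ 0 → z ^ d * P.eval (z + z⁻¹) = S.eval z := by
  refine ⟨C (1 / 2) * ∑ i ∈ Finset.range (2 * d + 1),
    C (S.coeff i) * dickson 1 (1 : ℂ) ((d - i) + (i - d)), fun z hz => ?_⟩
  have h1 : ∀ i, z ^ d * (dickson 1 (1 : ℂ) ((d - i) + (i - d))).eval (z + z⁻¹) =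
      z ^ i + z ^ (2 * d) * z⁻¹ ^ i := by
    intro i
    rw [dickson_one_one_eval_add_inv z z⁻¹ (mul_inv_cancel₀ hz)]
    rcases le_total i d with h | h
    · obtain ⟨j, rfl⟩ := Nat.exists_eq_add_of_le h
      rw [show i + j - i + (i - (i + j)) = j by omega]
      simp only [inv_pow]
      field_simp
      ring
    · obtain ⟨j, rfl⟩ := Nat.exists_eq_add_of_le h
      rw [show d - (d + j) + (d + j - d) = j by omega]
      simp only [inv_pow]
      field_simp
      ring
  have h2 := hp z hz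
  have h3 := eval_eq_sum_range' (Nat.lt_succ_of_le hS) z
  rw [eval_eq_sum_range' (Nat.lt_succ_of_le hS) z⁻¹, Finset.mul_sum] at h2
  have h4 : z ^ d * ∑ i ∈ Finset.range (2 * d + 1),
      S.coeff i * (dickson 1 (1 : ℂ) ((d - i) + (i - d))).eval (z + z⁻¹) = 2 * S.eval z := by
    rw [two_mul (S.eval z)]
    nth_rewrite 1 [h3]
    rw [← h2, ← Finset.sum_add_distrib, Finset.mul_sum]
    refine Finset.sum_congr rfl fun i _ => ?_
    rw [mul_left_comm, h1]
    ring
  simp only [eval_mul, eval_C, eval_finsetSum]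
  linear_combination h4 / 2

lemma eq_of_ne_zero {S T : ℂ[X]} (h : ∀ z : ℂ, z ≠ 0 → S.eval z = T.eval z) : S = T := by
  apply eq_of_infinite_eval_eq
  exact (Set.finite_singleton (0 : ℂ)).infinite_compl.mono fun z hz => h z hz

lemma pal_deg {d : ℕ} {S P : ℂ[X]} (hP : P ≠ 0)
    (h : ∀ z : ℂ, z ≠ 0 → z ^ d * P.eval (z + z⁻¹) = S.eval z) :
    S.natDegree = d + P.natDegree := by
  set k := P.natDegree with hk
  set T : ℂ[X] := ∑ i ∈ Finset.range (k + 1), C (P.coeff i) * (X ^ (k - i) * (X ^ 2 + 1) ^ i)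
    with hT
  have hm : (X ^ 2 + 1 : ℂ[X]).Monic := by monicity!
  have hd2 : (X ^ 2 + 1 : ℂ[X]).natDegree = 2 := by compute_degree!
  have hdeg : ∀ i, (X ^ (k - i) * (X ^ 2 + 1) ^ i : ℂ[X]).natDegree = k - i + i * 2 := by
    intro i
    rw [(monic_X_pow _).natDegree_mul (hm.pow _), natDegree_X_pow, hm.natDegree_pow, hd2]
  have hc : T.coeff (2 * k) ≠ 0 := by
    rw [hT, finsetSum_coeff, Finset.sum_eq_single k]
    · rw [coeff_C_mul, show 2 * k = k - k + k * 2 by omega, ← hdeg,
        ((monic_X_pow _).mul (hm.pow _)).coeff_natDegree, mul_one]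
      exact leadingCoeff_ne_zero.2 hP
    · intro i hi hne
      rw [Finset.mem_range] at hi
      rw [coeff_C_mul, coeff_eq_zero_of_natDegree_lt (n := 2 * k) (by rw [hdeg]; omega), mul_zero]
    · simp
  have hle : T.natDegree ≤ 2 * k := by
    refine natDegree_sum_le_of_forall_le _ _ fun i hi => (natDegree_C_mul_le _ _).trans ?_
    rw [Finset.mem_range] at hi
    rw [hdeg]; omega
  have hT0 : T ≠ 0 := by intro e; rw [e] at hc; simp at hc
  have e : X ^ d * T = X ^ k * S := by
    refine eq_of_ne_zero fun z hz => ?_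
    rw [eval_mul, eval_mul, ← h z hz, eval_pow, eval_pow, eval_X, mul_left_comm,
      eval_eq_sum_range (p := P), hT, eval_finsetSum, ← hk]
    congr 1
    rw [Finset.mul_sum]
    refine Finset.sum_congr rfl fun i hi => ?_
    rw [Finset.mem_range] at hi
    obtain ⟨j, hj⟩ := Nat.exists_eq_add_of_le (Nat.le_of_lt_succ hi)
    rw [hj, show i + j - i = j by omega, show z + z⁻¹ = (z ^ 2 + 1) / z by field_simp, div_pow]
    simp only [eval_mul, eval_C, eval_pow, eval_X, eval_add, eval_one]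
    field_simp
    ring
  have hS : S ≠ 0 := by
    rintro rfl
    simp [hT0] at e
  have := congrArg natDegree e
  rw [(monic_X_pow _).natDegree_mul' hT0, (monic_X_pow _).natDegree_mul' hS, natDegree_X_pow,
    natDegree_X_pow, le_antisymm hle (le_natDegree_of_ne_zero hc)] at this
  omega

/-- if `z ^ d U (z + 1 / z)` is the square of `V`, and `V` has a double root at `± 1` when it
vanishes there, then all roots of `U` are multiple -/
lemma pal_sq {d : ℕ} {U V : ℂ[X]}
    (h : ∀ z : ℂ, z ≠ 0 → z ^ d * U.eval (z + z⁻¹) = V.eval z ^ 2)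
    (h1 : ∀ z : ℂ, z * z = 1 → V.eval z = 0 → (derivative V).eval z = 0) {w : ℂ}
    (hw : U.eval w = 0) : (derivative U).eval w = 0 := by
  obtain ⟨z, hz, rfl⟩ := exists_add_inv w
  have hV : V.eval z = 0 := by
    have := h z hz
    rw [hw, mul_zero] at this
    exact pow_eq_zero_iff two_ne_zero |>.1 this.symm
  obtain ⟨U1, hU1⟩ := dvd_iff_isRoot.2 hw
  obtain ⟨V1, hV1⟩ := dvd_iff_isRoot.2 hV
  have g1 : (derivative U).eval (z + z⁻¹) = U1.eval (z + z⁻¹) := by rw [hU1]; simp
  rw [g1]
  have key : ∀ y : ℂ, y ≠ 0 → y ≠ z →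
      y ^ d * (1 - (y * z)⁻¹) * U1.eval (y + y⁻¹) = (y - z) * V1.eval y ^ 2 := by
    intro y hy hyz
    have := h y hy
    rw [hU1, hV1] at this
    simp only [eval_mul, eval_sub, eval_X, eval_C] at this
    apply mul_left_cancel₀ (sub_ne_zero.2 hyz)
    have e : y + y⁻¹ - (z + z⁻¹) = (y - z) * (1 - (y * z)⁻¹) := by field_simp; ring
    rw [e] at this
    linear_combination this
  have lim : ∀ F G : ℂ → ℂ, ContinuousAt F z → ContinuousAt G z →
      (∀ y : ℂ, y ≠ 0 → y ≠ z → F y = G y) → F z = G z := by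
    intro F G hF hG hFG
    refine tendsto_nhds_unique_of_frequently_eq hF.tendsto hG.tendsto ?_
    have h2 : ∀ᶠ y in 𝓝[≠] z, F y = G y := by
      filter_upwards [self_mem_nhdsWithin, nhdsWithin_le_nhds (eventually_ne_nhds hz)] with y a b
      exact hFG y b a
    exact h2.frequently.filter_mono nhdsWithin_le_nhds
  have cU : ContinuousAt (fun y : ℂ => U1.eval (y + y⁻¹)) z :=
    U1.continuous.continuousAt.comp (f := fun y : ℂ => y + y⁻¹)
      (continuousAt_id.add (continuousAt_inv₀ hz))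
  by_cases hz1 : z * z = 1
  · have g2 : V1.eval z = 0 := by
      have := h1 z hz1 hV
      rw [hV1] at this
      simpa using this
    have := lim (fun y => y ^ d * U1.eval (y + y⁻¹)) (fun y => y * V1.eval y ^ 2)
      ((continuousAt_id.pow d).mul cU) (continuousAt_id.mul (V1.continuous.continuousAt.pow 2))
      (fun y hy hyz => by
        have := key y hy hyz
        have e : 1 - (y * z)⁻¹ = (y - z) * y⁻¹ := by
          rw [mul_inv, inv_eq_of_mul_eq_one_left hz1]; field_simp
        rw [e] at this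
        apply mul_left_cancel₀ (mul_ne_zero (sub_ne_zero.2 hyz) (inv_ne_zero hy))
        have e2 : y⁻¹ * y = 1 := inv_mul_cancel₀ hy
        linear_combination this - (y - z) * V1.eval y ^ 2 * e2)
    simp only [g2] at this
    simpa [hz] using this
  · have := lim (fun y => y ^ d * (1 - (y * z)⁻¹) * U1.eval (y + y⁻¹))
      (fun y => (y - z) * V1.eval y ^ 2)
      (((continuousAt_id.pow d).mul (continuousAt_const.sub
        ((continuousAt_id.mul continuousAt_const).inv₀ (mul_ne_zero hz hz)))).mul cU)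
      ((continuousAt_id.sub continuousAt_const).mul (V1.continuous.continuousAt.pow 2)) key
    have h3 : (1 : ℂ) - (z * z)⁻¹ ≠ 0 := by
      rw [sub_ne_zero]
      intro e
      exact hz1 (inv_eq_one.1 e.symm)
    simp only [sub_self, zero_mul] at this
    exact (mul_eq_zero.1 this).resolve_left (mul_ne_zero (pow_ne_zero _ hz) h3)

lemma two_mul_card_le {U : ℂ[X]} (hU : U ≠ 0)
    (h : ∀ w, U.eval w = 0 → (derivative U).eval w = 0) :
    2 * U.roots.toFinset.card ≤ U.natDegree := by
  rw [← sum_mult U, mul_comm, ← smul_eq_mul]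
  refine Finset.card_nsmul_le_sum _ _ _ fun z hz => ?_
  rw [Multiset.mem_toFinset, mem_roots hU] at hz
  exact (one_lt_rootMultiplicity_iff_isRoot hU).2 ⟨hz, h z hz⟩

/-- multiplicities of `G (z ^ N)` on a set where `z ^ N` is injective -/
lemma sum_mult_expand {N : ℕ} (hN : N ≠ 0) (T : Finset ℂ) (h0 : ∀ z ∈ T, z ≠ 0)
    (hinj : ∀ z ∈ T, ∀ y ∈ T, z ^ N = y ^ N → z = y) {G : ℂ[X]} (hG : G ≠ 0) :
    ∑ z ∈ T, (expand ℂ N G).rootMultiplicity z ≤ G.natDegree := by
  classical
  induction hn : G.natDegree generalizing G with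
  | zero =>
    rw [eq_C_of_natDegree_eq_zero hn]
    simp [rootMultiplicity_C]
  | succ n ih =>
    obtain ⟨u, hu⟩ := IsAlgClosed.exists_root G (by
      rw [degree_eq_natDegree hG, hn]; exact_mod_cast Nat.succ_ne_zero n)
    obtain ⟨G1, rfl⟩ := dvd_iff_isRoot.2 hu
    have hG1 : G1 ≠ 0 := right_ne_zero_of_mul hG
    rw [(monic_X_sub_C u).natDegree_mul' hG1, natDegree_X_sub_C] at hn
    have hne : expand ℂ N (X - C u) * expand ℂ N G1 ≠ 0 := by
      rw [← map_mul]; exact (expand_ne_zero (Nat.pos_of_ne_zero hN)).2 hG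
    have h1 := ih hG1 (by omega)
    have h2 : ∑ z ∈ T, (expand ℂ N (X - C u)).rootMultiplicity z ≤ 1 := by
      have h3 : ∀ z ∈ T, (expand ℂ N (X - C u)).rootMultiplicity z ≤
          if z ^ N = u then 1 else 0 := by
        intro z hz
        split_ifs with e
        · by_contra! hlt
          have := ((one_lt_rootMultiplicity_iff_isRoot (left_ne_zero_of_mul hne)).1 hlt).2
          simp [hN, h0 z hz, derivative_X_pow] at this
        · rw [rootMultiplicity_eq_zero (by simpa [sub_eq_zero] using e)]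
      refine (Finset.sum_le_sum h3).trans ?_
      rw [← Finset.card_filter, Finset.card_le_one]
      intro a ha b hb
      rw [Finset.mem_filter] at ha hb
      exact hinj a ha.1 b hb.1 (ha.2.trans hb.2.symm)
    simp only [map_mul, rootMultiplicity_mul hne, Finset.sum_add_distrib]
    omega

end Pool.Agent.Lib.MP_af33d6_an.OD
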