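import Pool.Agent.Lib.MP_af33d6_an.Separate

/-!
Sizes of fibres of rational maps and the Riemann-Hurwitz inequality.
-/

open Polynomial Filter Topology OnePoint Set

namespace Pool.Agent.Lib.MP_af33d6_an.OD

/-- number of preimages -/
noncomputable def nf (h : P1 → P1) (c : P1) : ℕ := (h ⁻¹' {c}).ncard

lemma mult_le_wr {U V : ℂ[X]} (hU : U ≠ 0) (hW : wronskian U V ≠ 0) (z : ℂ) :
    U.rootMultiplicity z ≤ (wronskian U V).rootMultiplicity z + 1 := by
  have h1 : (X - C z) ^ (U.rootMultiplicity z - 1) ∣ U :=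
    (le_rootMultiplicity_iff hU).1 (Nat.sub_le _ _)
  have h2 : (X - C z) ^ (U.rootMultiplicity z - 1) ∣ derivative U :=
    (pow_dvd_pow _ (rootMultiplicity_sub_one_le_derivative_rootMultiplicity U z)).trans
      (pow_rootMultiplicity_dvd _ _)
  have h3 : (X - C z) ^ (U.rootMultiplicity z - 1) ∣ wronskian U V :=
    dvd_sub (h1.mul_right _) (h2.mul_right _)
  have := (le_rootMultiplicity_iff hW).2 h3
  omega

lemma wr_lt_mult {U V : ℂ[X]} (hU : U ≠ 0) {z : ℂ} (hz : U.IsRoot z) (hV : V.eval z ≠ 0) :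
    (wronskian U V).rootMultiplicity z + 1 ≤ U.rootMultiplicity z := by
  by_contra! hlt
  have hm : 0 < U.rootMultiplicity z := (rootMultiplicity_pos hU).2 hz
  have h1 : (X - C z) ^ (U.rootMultiplicity z) ∣ wronskian U V :=
    (pow_dvd_pow _ (by omega)).trans (pow_rootMultiplicity_dvd _ _)
  have h2 : (X - C z) ^ (U.rootMultiplicity z) ∣ derivative U * V := by
    have h3 : derivative U * V = U * derivative V - wronskian U V := by
      rw [wronskian]; ring
    rw [h3]
    exact dvd_sub ((pow_rootMultiplicity_dvd _ _).mul_right _) h1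
  have hd : derivative U ≠ 0 := by
    intro h0
    have h4 := eq_C_of_natDegree_eq_zero (Polynomial.derivative_eq_zero.1 h0)
    rw [h4] at hz hU
    simp at hz hU
    exact hU hz
  have hV0 : V ≠ 0 := by rintro rfl; simp at hV
  have h5 := (le_rootMultiplicity_iff (mul_ne_zero hd hV0)).2 h2
  rw [rootMultiplicity_mul (mul_ne_zero hd hV0), derivative_rootMultiplicity_of_root hz,
    rootMultiplicity_eq_zero (p := V) hV] at h5
  omega

lemma deg_wr {U V : ℂ[X]} (hU : U ≠ 0) (h : U.natDegree < V.natDegree) :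
    U.natDegree + V.natDegree ≤ (wronskian U V).natDegree + 1 := by
  have hV : V ≠ 0 := by rintro rfl; simp at h
  obtain ⟨e, he⟩ : ∃ e, V.natDegree = e + 1 := ⟨V.natDegree - 1, by omega⟩
  have hl1 : U.coeff U.natDegree ≠ 0 := leadingCoeff_ne_zero.2 hU
  have hl2 : V.coeff (e + 1) ≠ 0 := by rw [← he]; exact leadingCoeff_ne_zero.2 hV
  have h1 : (U * derivative V).coeff (U.natDegree + e) =
      U.coeff U.natDegree * (V.coeff (e + 1) * (e + 1)) := by
    rw [coeff_mul_add_eq_of_natDegree_le le_rfl
      ((natDegree_derivative_le V).trans (by omega)), coeff_derivative]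
  have h2 : (derivative U * V).coeff (U.natDegree + e) =
      U.coeff U.natDegree * U.natDegree * V.coeff (e + 1) := by
    rcases Nat.eq_zero_or_pos U.natDegree with h0 | h0
    · rw [Polynomial.derivative_eq_zero.2 h0, h0]; simp
    · obtain ⟨k, hk⟩ : ∃ k, U.natDegree = k + 1 := ⟨U.natDegree - 1, by omega⟩
      rw [hk, show k + 1 + e = k + (e + 1) by ring, coeff_mul_add_eq_of_natDegree_le
        ((natDegree_derivative_le U).trans (by omega)) he.le, coeff_derivative]
      push_cast; ring
  have h3 : (wronskian U V).coeff (U.natDegree + e) ≠ 0 := by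
    rw [wronskian, coeff_sub, h1, h2]
    have h4 : ((e : ℂ) + 1) - U.natDegree ≠ 0 := by
      rw [sub_ne_zero]
      intro h5
      have : e + 1 = U.natDegree := by exact_mod_cast h5
      omega
    intro h6
    apply mul_ne_zero (mul_ne_zero hl1 hl2) h4
    linear_combination h6
  have := le_natDegree_of_ne_zero h3
  omega

lemma sum_mult (U : ℂ[X]) :
    ∑ z ∈ U.roots.toFinset, U.rootMultiplicity z = U.natDegree := by
  classical
  rw [← IsAlgClosed.card_roots_eq_natDegree, ← Multiset.toFinset_sum_count_eq]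
  exact Finset.sum_congr rfl fun z _ => (count_roots U).symm

/-- the polynomial whose roots are the finite preimages of `c` -/
noncomputable def frm (P Q : ℂ[X]) (c : P1) : ℂ[X] := OnePoint.elim c Q (fun c : ℂ => P - C c * Q)

/-- a companion of `frm` -/
noncomputable def cof (P Q : ℂ[X]) (c : P1) : ℂ[X] := OnePoint.elim c (-P) (fun _ : ℂ => Q)

section
variable {P Q : ℂ[X]} (h : IsCoprime P Q)
include h

lemma frm_root (c : P1) (z : ℂ) : ratMap P Q (z : P1) = c ↔ (frm P Q c).IsRoot z := by
  induction c using OnePoint.rec with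
  | infty => rw [ratMap_coe, pt_eq_infty]; rfl
  | coe c => exact ratMap_coe_eq_coe h z c

omit h in
lemma frm_wr (c : P1) : wronskian (frm P Q c) (cof P Q c) = wronskian P Q := by
  induction c using OnePoint.rec with
  | infty =>
    show wronskian Q (-P) = _
    rw [wronskian_neg_right, wronskian_neg_eq]
  | coe c =>
    show wronskian (P - C c * Q) Q = _
    simp only [wronskian, derivative_sub, derivative_mul, derivative_C]
    ring

lemma cof_ne (c : P1) {z : ℂ} (hz : (frm P Q c).IsRoot z) : (cof P Q c).eval z ≠ 0 := by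
  induction c using OnePoint.rec with
  | infty =>
    show (-P).eval z ≠ 0
    rw [eval_neg, neg_ne_zero]
    exact (no_common_root h z).resolve_right (not_not.2 hz)
  | coe c =>
    have := (ratMap_coe_eq_coe h z c).2 hz
    rw [ratMap_coe, pt_eq_coe] at this
    exact this.1

omit h in
lemma frm_deg_le (c : P1) : (frm P Q c).natDegree ≤ max P.natDegree Q.natDegree := by
  induction c using OnePoint.rec with
  | infty => exact le_max_right _ _
  | coe c =>
    refine (natDegree_sub_le _ _).trans (max_le (le_max_left _ _) ?_)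
    exact (natDegree_C_mul_le _ _).trans (le_max_right _ _)

lemma wr_ne (hd : 1 ≤ max P.natDegree Q.natDegree) : wronskian P Q ≠ 0 := by
  intro hW
  obtain ⟨h1, h2⟩ := h.wronskian_eq_zero_iff.1 hW
  have hP : P.natDegree = 0 := Polynomial.derivative_eq_zero.1 h1
  have hQ : Q.natDegree = 0 := Polynomial.derivative_eq_zero.1 h2
  omega

lemma frm_ne (hd : 1 ≤ max P.natDegree Q.natDegree) (c : P1) : frm P Q c ≠ 0 := by
  intro h0
  apply wr_ne h hd
  rw [← frm_wr c, h0, wronskian_zero_left]

lemma frm_deg_of_ne {c : P1} (hc : ratMap P Q ∞ ≠ c) :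
    (frm P Q c).natDegree = max P.natDegree Q.natDegree := by
  induction c using OnePoint.rec with
  | infty =>
    rw [ratMap_infty, Ne, pt_eq_infty] at hc
    exact le_antisymm (le_max_right _ _) (le_natDegree_of_ne_zero hc)
  | coe c => exact (natDegree_sub_of_ne h hc).2

lemma frm_deg_of_eq (hd : 1 ≤ max P.natDegree Q.natDegree) {c : P1} (hc : ratMap P Q ∞ = c) :
    (frm P Q c).natDegree < max P.natDegree Q.natDegree ∧
      (cof P Q c).natDegree = max P.natDegree Q.natDegree := by
  have key : (frm P Q c).coeff (max P.natDegree Q.natDegree) = 0 →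
      (frm P Q c).natDegree < max P.natDegree Q.natDegree := by
    intro h0
    refine lt_of_le_of_ne (frm_deg_le c) fun e => ?_
    rw [← e] at h0
    exact frm_ne h hd c (leadingCoeff_eq_zero.1 h0)
  induction c using OnePoint.rec with
  | infty =>
    rw [ratMap_infty, pt_eq_infty] at hc
    refine ⟨key hc, ?_⟩
    show (-P).natDegree = _
    rw [natDegree_neg]
    exact le_antisymm (le_max_left _ _)
      (le_natDegree_of_ne_zero ((top_coeff_ne h).resolve_right (not_not.2 hc)))
  | coe c =>
    rw [ratMap_infty, pt_eq_coe] at hc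
    refine ⟨key ?_, le_antisymm (le_max_right _ _) (le_natDegree_of_ne_zero hc.1)⟩
    show (P - C c * Q).coeff _ = 0
    rw [coeff_sub, coeff_C_mul, hc.2, sub_self]

open Classical in
lemma fib_eq (hd : 1 ≤ max P.natDegree Q.natDegree) (c : P1) : ratMap P Q ⁻¹' {c} =
    ((((frm P Q c).roots.toFinset.image ((↑) : ℂ → P1)) ∪
      (if ratMap P Q ∞ = c then {∞} else ∅) : Finset P1) : Set P1) := by
  ext x
  induction x using OnePoint.rec with
  | infty => by_cases e : ratMap P Q ∞ = c <;> simp [e]
  | coe z =>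
    rw [mem_preimage, mem_singleton_iff, frm_root h]
    by_cases e : ratMap P Q ∞ = c <;> simp [e, frm_ne h hd c]

open Classical in
lemma nf_eq (hd : 1 ≤ max P.natDegree Q.natDegree) (c : P1) : nf (ratMap P Q) c =
    (frm P Q c).roots.toFinset.card + if ratMap P Q ∞ = c then 1 else 0 := by
  rw [nf, fib_eq h hd, Set.ncard_coe_finset, Finset.card_union_of_disjoint,
    Finset.card_image_of_injective _ OnePoint.coe_injective]
  · split_ifs <;> simp
  · split_ifs <;> simp

end

lemma _root_.Pool.Agent.Lib.MP_af33d6_an.IsRat.finite_fib {d : ℕ} {f : P1 → P1} (hf : IsRat d f)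
    (hd : 1 ≤ d) (c : P1) : (f ⁻¹' {c}).Finite := by
  obtain ⟨P, Q, h, rfl, rfl⟩ := hf
  rw [fib_eq h hd]
  exact Finset.finite_toSet _

lemma _root_.Pool.Agent.Lib.MP_af33d6_an.IsRat.nf_le {d : ℕ} {f : P1 → P1} (hf : IsRat d f)
    (hd : 1 ≤ d) (c : P1) : nf f c ≤ d := by
  classical
  obtain ⟨P, Q, h, rfl, rfl⟩ := hf
  rw [nf_eq h hd]
  have h1 := (Multiset.toFinset_card_le (frm P Q c).roots).trans (card_roots' _)
  split_ifs with e
  · have := (frm_deg_of_eq h hd e).1
    omega
  · have := frm_deg_le (P := P) (Q := Q) c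
    omega

lemma nf_comp_le {d e : ℕ} {h k : P1 → P1} (hh : IsRat d h) (hk : IsRat e k) (hd : 1 ≤ d)
    (he : 1 ≤ e) (c : P1) : nf (h ∘ k) c ≤ e * nf h c := by
  classical
  have f1 := hh.finite_fib hd c
  have f2 : ((h ∘ k) ⁻¹' {c}).Finite := by
    rw [Set.preimage_comp]
    exact f1.preimage' fun b _ => hk.finite_fib he b
  rw [nf, nf, Set.ncard_eq_toFinset_card _ f1, Set.ncard_eq_toFinset_card _ f2]
  refine Finset.card_le_mul_card_image_of_maps_to (f := k) (by simp) e fun b _ => ?_
  refine le_trans ?_ (hk.nf_le he b)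
  rw [nf, Set.ncard_eq_toFinset_card _ (hk.finite_fib he b)]
  apply Finset.card_le_card
  intro x hx
  simpa using (Finset.mem_filter.1 hx).2

/-- Riemann-Hurwitz inequality -/
theorem rh {d : ℕ} {f : P1 → P1} (hf : IsRat d f) (hd : 1 ≤ d) (S : Finset P1)
    (hS : ∀ c, c ∉ S → d ≤ nf f c) : 2 * d + ∑ c ∈ S, nf f c ≤ S.card * d + 2 := by
  classical
  wlog h0 : f ∞ ∈ S generalizing S
  · have := this (insert (f ∞) S) (fun c hc => hS c fun e => hc (Finset.mem_insert_of_mem e))
      (Finset.mem_insert_self _ _)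
    rw [Finset.sum_insert h0, Finset.card_insert_of_notMem h0, add_mul] at this
    have := hS _ h0
    omega
  obtain ⟨P, Q, h, rfl, rfl⟩ := hf
  set W := wronskian P Q with hW
  have key : ∀ c, ∑ z ∈ (frm P Q c).roots.toFinset, W.rootMultiplicity z +
      (frm P Q c).roots.toFinset.card ≤ (frm P Q c).natDegree := by
    intro c
    rw [← sum_mult (frm P Q c), Finset.card_eq_sum_ones, ← Finset.sum_add_distrib]
    refine Finset.sum_le_sum fun z hz => ?_
    have hz' : (frm P Q c).IsRoot z := by
      rwa [Multiset.mem_toFinset, mem_roots (frm_ne h hd c)] at hz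
    rw [hW, ← frm_wr c]
    exact wr_lt_mult (frm_ne h hd c) hz' (cof_ne h c hz')
  have maps : ∀ z ∈ W.roots.toFinset, ratMap P Q (z : P1) ∈ S := by
    intro z hz
    by_contra hc
    have hne : ratMap P Q ∞ ≠ ratMap P Q (z : P1) := fun e => hc (e ▸ h0)
    have h1 := hS _ hc
    rw [nf_eq h hd, if_neg hne] at h1
    have h2 := key (ratMap P Q (z : P1))
    rw [frm_deg_of_ne h hne] at h2
    have h3 : z ∈ (frm P Q (ratMap P Q (z : P1))).roots.toFinset := by
      rw [Multiset.mem_toFinset, mem_roots (frm_ne h hd _), ← frm_root h]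
    have h4 := Finset.single_le_sum (f := fun z => W.rootMultiplicity z)
      (fun _ _ => Nat.zero_le _) h3
    have h5 : 0 < W.rootMultiplicity z := by
      rw [Multiset.mem_toFinset, mem_roots (wr_ne h hd)] at hz
      exact (rootMultiplicity_pos (wr_ne h hd)).2 hz
    omega
  have h1 : W.natDegree ≤ ∑ c ∈ S, ∑ z ∈ (frm P Q c).roots.toFinset, W.rootMultiplicity z := by
    rw [← sum_mult W, ← Finset.sum_fiberwise_of_maps_to maps]
    refine Finset.sum_le_sum fun c _ => Finset.sum_le_sum_of_subset fun z hz => ?_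
    rw [Multiset.mem_toFinset, mem_roots (frm_ne h hd _), ← frm_root h]
    exact (Finset.mem_filter.1 hz).2
  obtain ⟨h2, h3⟩ := frm_deg_of_eq h hd (c := ratMap P Q ∞) rfl
  have h4 := deg_wr (frm_ne h hd (ratMap P Q ∞)) (h3 ▸ h2)
  rw [frm_wr, h3, ← hW] at h4
  have h5 : ∑ c ∈ S.erase (ratMap P Q ∞), (∑ z ∈ (frm P Q c).roots.toFinset,
      W.rootMultiplicity z + nf (ratMap P Q) c) ≤
      (S.erase (ratMap P Q ∞)).card • max P.natDegree Q.natDegree := by
    refine Finset.sum_le_card_nsmul _ _ _ fun c hc => ?_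
    have hne : ratMap P Q ∞ ≠ c := (Finset.ne_of_mem_erase hc).symm
    rw [nf_eq h hd, if_neg hne, ← frm_deg_of_ne h hne]
    exact key c
  have h6 := key (ratMap P Q ∞)
  have h7 := nf_eq h hd (ratMap P Q ∞)
  rw [if_pos rfl] at h7
  rw [Finset.sum_add_distrib, smul_eq_mul] at h5
  rw [← Finset.add_sum_erase _ _ h0] at h1
  rw [← Finset.add_sum_erase _ _ h0, ← Finset.card_erase_add_one h0, add_mul]
  omega

end Pool.Agent.Lib.MP_af33d6_an.OD
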