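import Pool.Agent.Lib.MP_af33d6_an.OD.Five

/-!
The icosahedral counterexample of degree seven.
-/

open Polynomial Filter Topology OnePoint Set

namespace Pool.Agent.Lib.MP_af33d6_an.OD

/-- the involution `z ↦ - 1 / z` -/
noncomputable def io : P1 → P1 := inv ∘ sc (-1)

/-- the icosahedral map of degree seven -/
noncomputable def F7 : P1 → P1 := rm (num 5 2 (X + 7)) (expand ℂ 5 (1 - 7 * X))

noncomputable def P7 : ℂ[X] := X ^ 2 * (X + 7) ^ 5

noncomputable def Q7 : ℂ[X] := (1 - 7 * X) ^ 5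

/-- its quotient by the rotation of order five -/
noncomputable def f7 : P1 → P1 := rm P7 Q7

lemma io_pt {a b : ℂ} (h : a ≠ 0 ∨ b ≠ 0) : io (pt a b) = pt (-b) a := by
  rw [io, Function.comp, sc_pt, inv_pt (by simpa using h), ← pt_mul (c := -1) (by norm_num)]
  simp

@[simp] lemma io_infty : io ∞ = ((0 : ℂ) : P1) := rfl

@[simp] lemma io_zero : io ((0 : ℂ) : P1) = ∞ := by simp [io]

lemma io_coe {z : ℂ} (hz : z ≠ 0) : io (z : P1) = ((-z⁻¹ : ℂ) : P1) := by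
  rw [io, Function.comp, sc_coe, inv_coe_of_ne (by simpa using hz)]
  simp

lemma io_io (x : P1) : io (io x) = x := by
  simp only [io, Function.comp]
  rw [inv_sc (by norm_num), inv_inv', sc_sc]
  simp

lemma io_sc {s : ℂ} (hs : s ≠ 0) (x : P1) : io (sc s x) = sc s⁻¹ (io x) := by
  simp only [io, Function.comp]
  rw [← inv_sc hs, sc_sc, sc_sc, mul_comm]

lemma pw_io (x : P1) : io (pw x) = pw (io x) := by
  induction x using OnePoint.rec with
  | infty => simp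
  | coe z =>
    by_cases hz : z = 0
    · simp [hz]
    · rw [pw_coe, io_coe hz, io_coe (pow_ne_zero _ hz), pw_coe]
      congr 1
      ring

lemma F7_coe (z : ℂ) : F7 (z : P1) = pt (z ^ 2 * (z ^ 5 + 7)) (1 - 7 * z ^ 5) := by
  simp [F7, eval_num]

lemma f7_coe (z : ℂ) : f7 (z : P1) = pt (z ^ 2 * (z + 7) ^ 5) ((1 - 7 * z) ^ 5) := by
  simp [f7, P7, Q7]

lemma nc7 (z u : ℂ) (h : z = 0 → u = 0) (k : ℕ) (hk : k ≠ 0) :
    z ^ 2 * (u + 7) ^ k ≠ 0 ∨ (1 - 7 * u) ^ k ≠ 0 := by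
  by_contra! h0
  have h1 : 1 - 7 * u = 0 := (pow_eq_zero_iff hk).1 h0.2
  rcases mul_eq_zero.1 h0.1 with h2 | h2
  · rw [h (by simpa using h2)] at h1
    norm_num at h1
  · have h3 : u + 7 = 0 := (pow_eq_zero_iff hk).1 h2
    have : (50 : ℂ) = 0 := by linear_combination h1 + 7 * h3
    norm_num at this

lemma ncF (z : ℂ) : z ^ 2 * (z ^ 5 + 7) ≠ 0 ∨ 1 - 7 * z ^ 5 ≠ 0 := by
  simpa only [pow_one] using nc7 z (z ^ 5) (by rintro rfl; simp) 1 one_ne_zero

lemma ncf (z : ℂ) : P7.eval z ≠ 0 ∨ Q7.eval z ≠ 0 := by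
  simpa only [P7, Q7, eval_mul, eval_pow, eval_add, eval_sub, eval_X, eval_one, eval_ofNat]
    using nc7 z z id 5 (by norm_num)

lemma f7_pw (x : P1) : f7 (pw x) = pw (F7 x) := by
  induction x using OnePoint.rec with
  | infty => simp only [pw_infty, f7, F7, rm_infty]
  | coe z =>
    rw [pw_coe, f7_coe, F7_coe, pw_pt]
    congr 1
    ring

lemma F7_io (x : P1) : F7 (io x) = io (F7 x) := by
  induction x using OnePoint.rec with
  | infty => rw [io_infty, F7_coe]; simp [F7, pt]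
  | coe z =>
    by_cases hz : z = 0
    · rw [hz, F7_coe]; simp [F7, pt]
    · rw [io_coe hz, F7_coe, F7_coe, io_pt (ncF z), ← pt_mul (pow_ne_zero 7 hz),
        ← pt_mul (a := -(1 - 7 * z ^ 5)) (pow_ne_zero 0 hz)]
      congr 1 <;> (field_simp; try ring)

lemma f7_io (x : P1) : f7 (io x) = io (f7 x) := by
  induction x using OnePoint.rec with
  | infty => rw [io_infty, f7_coe]; simp [f7, pt]
  | coe w =>
    obtain ⟨z, rfl⟩ := IsAlgClosed.exists_pow_nat_eq w (n := 5) (by norm_num)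
    rw [← pw_coe, pw_io, f7_pw, f7_pw, F7_io, pw_io]

lemma io_iterate {h : P1 → P1} (hh : ∀ x, h (io x) = io (h x)) (n : ℕ) :
    (Even n → (io ∘ h)^[n] = h^[n]) ∧ (Odd n → (io ∘ h)^[n] = io ∘ h^[n]) := by
  have hc : Function.Commute io h := fun x => (hh x).symm
  have hi : Function.Involutive io := io_io
  rw [hc.comp_iterate]
  exact ⟨fun he => by rw [hi.iterate_even he]; rfl, fun ho => by rw [hi.iterate_odd ho]⟩

lemma deg_P7 : P7.natDegree = 7 := by unfold P7; compute_degree!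

lemma deg_Q7 : Q7.natDegree = 5 := by
  rw [Q7, natDegree_pow, show (1 - 7 * X : ℂ[X]).natDegree = 1 by compute_degree!]

lemma atInf_f7 : AtInf f7 2 :=
  atInf_rm (by norm_num) (by intro e; have := deg_Q7; rw [e] at this; simp at this)
    (by rw [deg_P7, deg_Q7]) ncf

lemma atInf_F7 : AtInf F7 2 := by
  have h1 : (expand ℂ 5 (1 - 7 * X)).natDegree = 5 := by
    rw [natDegree_expand, show (1 - 7 * X : ℂ[X]).natDegree = 1 by compute_degree!]
  refine atInf_rm (by norm_num) (by intro e; rw [e] at h1; simp at h1) ?_ fun z => ?_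
  · rw [h1]
    simp only [num, map_add, expand_X, map_ofNat]
    compute_degree!
  · simpa [eval_num] using ncF z

lemma SA_F7 : SA F7 0 := by
  have hfix : F7 ((0 : ℂ) : P1) = ((0 : ℂ) : P1) := by rw [F7_coe]; simp [pt]
  exact ⟨(good_rm _ _).2 _ (by rw [← F7, hfix]; simp), hfix,
    deriv_rm_eq_zero _ _ (by simp) (by simp [num])⟩

lemma SA_f7 : SA f7 0 := by
  have hfix : f7 ((0 : ℂ) : P1) = ((0 : ℂ) : P1) := by rw [f7_coe]; simp [pt]
  exact ⟨(good_rm _ _).2 _ (by rw [← f7, hfix]; simp), hfix,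
    deriv_rm_eq_zero _ _ (by simp [Q7]) (by simp [P7])⟩

section
variable {p : ℂ} (hp : p ^ 2 = p + 1)
include hp

lemma p_ne : p ≠ 0 := by rintro rfl; simp at hp

lemma p_det : -1 * 1 - p * p ≠ 0 := by
  intro h
  have h1 : p = -2 := by linear_combination -h - hp
  rw [h1] at hp
  norm_num at hp

lemma mob_nc {u v : ℂ} (h : u ≠ 0 ∨ v ≠ 0) : -1 * u + p * v ≠ 0 ∨ p * u + 1 * v ≠ 0 := by
  by_contra! h0
  rcases h with h | h
  · exact mul_ne_zero (p_det hp) h (by linear_combination h0.1 - p * h0.2)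
  · exact mul_ne_zero (p_det hp) h (by linear_combination -p * h0.1 - h0.2)

lemma mob_mob (x : P1) : mob (-1) p p 1 (mob (-1) p p 1 x) = x := by
  induction x using OnePoint.rec with
  | infty =>
    rw [mob_infty, mob_pt _ _ _ _ (Or.inl (by norm_num)), pt_eq_infty]
    ring
  | coe z =>
    rw [mob_coe, mob_pt _ _ _ _ (by simpa using mob_nc hp (u := z) (Or.inr one_ne_zero)),
      pt_eq_coe]
    exact ⟨fun h => p_det hp (by linear_combination -h), by ring⟩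

lemma F7_hom {x y : ℂ} (h : x ≠ 0 ∨ y ≠ 0) :
    F7 (pt x y) = pt (x ^ 7 + 7 * x ^ 2 * y ^ 5) (y ^ 7 - 7 * x ^ 5 * y ^ 2) ∧
    (x ^ 7 + 7 * x ^ 2 * y ^ 5 ≠ 0 ∨ y ^ 7 - 7 * x ^ 5 * y ^ 2 ≠ 0) := by
  by_cases hy : y = 0
  · have hx : x ≠ 0 := by tauto
    simp [hy, hx, F7]
  · have e1 : y ^ 7 * ((x / y) ^ 2 * ((x / y) ^ 5 + 7)) = x ^ 7 + 7 * x ^ 2 * y ^ 5 := by
      field_simp
    have e2 : y ^ 7 * (1 - 7 * (x / y) ^ 5) = y ^ 7 - 7 * x ^ 5 * y ^ 2 := by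
      field_simp
    rw [pt_of_ne hy, F7_coe, ← pt_mul (pow_ne_zero 7 hy), ← e1, ← e2]
    exact ⟨rfl, (ncF (x / y)).imp (mul_ne_zero (pow_ne_zero 7 hy))
      (mul_ne_zero (pow_ne_zero 7 hy))⟩

lemma G_mob (x : P1) : (io ∘ F7) (mob (-1) p p 1 x) = mob (-1) p p 1 (F7 x) := by
  have key : ∀ u v : ℂ, u ≠ 0 ∨ v ≠ 0 →
      (io ∘ F7) (mob (-1) p p 1 (pt u v)) = mob (-1) p p 1 (F7 (pt u v)) := by
    intro u v h
    have hk : 15 + 20 * p ≠ 0 := by
      intro e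
      have h1 : p = -3 / 4 := by linear_combination e / 20
      rw [h1] at hp
      norm_num at hp
    obtain ⟨a1, a2⟩ := F7_hom hp h
    obtain ⟨b1, b2⟩ := F7_hom hp (mob_nc hp h)
    rw [Function.comp, mob_pt _ _ _ _ h, b1, io_pt b2, a1, mob_pt _ _ _ _ a2, ← pt_mul hk
      (a := -1 * (u ^ 7 + 7 * u ^ 2 * v ^ 5) + p * (v ^ 7 - 7 * u ^ 5 * v ^ 2))]
    congr 1
    · linear_combination ((1) * u ^ 0 * v ^ 7 * p ^ 0 + (14) * u ^ 0 * v ^ 7 * p ^ 1 + (7) * u ^ 0 * v ^ 7 * p ^ 2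
        + (7) * u ^ 0 * v ^ 7 * p ^ 3 + (7) * u ^ 1 * v ^ 6 * p ^ 1 + (-7) * u ^ 1 * v ^ 6 * p ^
        2 + (14) * u ^ 1 * v ^ 6 * p ^ 3 + (14) * u ^ 1 * v ^ 6 * p ^ 4 + (-105) * u ^ 2 * v ^ 5
        * p ^ 0 + (-35) * u ^ 2 * v ^ 5 * p ^ 1 + (-49) * u ^ 2 * v ^ 5 * p ^ 2 + (-56) * u ^ 2
        * v ^ 5 * p ^ 3 + (7) * u ^ 2 * v ^ 5 * p ^ 4 + (7) * u ^ 2 * v ^ 5 * p ^ 5 + (70) * u ^
        3 * v ^ 4 * p ^ 2 + (-35) * u ^ 3 * v ^ 4 * p ^ 3 + (-35) * u ^ 3 * v ^ 4 * p ^ 4 +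
        (-35) * u ^ 4 * v ^ 3 * p ^ 1 + (35) * u ^ 4 * v ^ 3 * p ^ 2 + (70) * u ^ 4 * v ^ 3 * p
        ^ 3 + (7) * u ^ 5 * v ^ 2 * p ^ 0 + (-112) * u ^ 5 * v ^ 2 * p ^ 1 + (-91) * u ^ 5 * v ^
        2 * p ^ 2 + (-21) * u ^ 5 * v ^ 2 * p ^ 3 + (14) * u ^ 6 * v ^ 1 * p ^ 1 + (-14) * u ^ 6
        * v ^ 1 * p ^ 2 + (-7) * u ^ 6 * v ^ 1 * p ^ 3 + (-7) * u ^ 6 * v ^ 1 * p ^ 4 + (-15) *
        u ^ 7 * v ^ 0 * p ^ 0 + (-5) * u ^ 7 * v ^ 0 * p ^ 1 + (-3) * u ^ 7 * v ^ 0 * p ^ 2 +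
        (-2) * u ^ 7 * v ^ 0 * p ^ 3 + (-1) * u ^ 7 * v ^ 0 * p ^ 4 + (-1) * u ^ 7 * v ^ 0 * p ^
        5) * hp
    · linear_combination ((15) * u ^ 0 * v ^ 7 * p ^ 0 + (5) * u ^ 0 * v ^ 7 * p ^ 1 + (3) * u ^ 0 * v ^ 7 * p ^ 2
        + (2) * u ^ 0 * v ^ 7 * p ^ 3 + (1) * u ^ 0 * v ^ 7 * p ^ 4 + (1) * u ^ 0 * v ^ 7 * p ^
        5 + (14) * u ^ 1 * v ^ 6 * p ^ 1 + (-14) * u ^ 1 * v ^ 6 * p ^ 2 + (-7) * u ^ 1 * v ^ 6
        * p ^ 3 + (-7) * u ^ 1 * v ^ 6 * p ^ 4 + (-7) * u ^ 2 * v ^ 5 * p ^ 0 + (112) * u ^ 2 *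
        v ^ 5 * p ^ 1 + (91) * u ^ 2 * v ^ 5 * p ^ 2 + (21) * u ^ 2 * v ^ 5 * p ^ 3 + (-35) * u
        ^ 3 * v ^ 4 * p ^ 1 + (35) * u ^ 3 * v ^ 4 * p ^ 2 + (70) * u ^ 3 * v ^ 4 * p ^ 3 +
        (-70) * u ^ 4 * v ^ 3 * p ^ 2 + (35) * u ^ 4 * v ^ 3 * p ^ 3 + (35) * u ^ 4 * v ^ 3 * p
        ^ 4 + (-105) * u ^ 5 * v ^ 2 * p ^ 0 + (-35) * u ^ 5 * v ^ 2 * p ^ 1 + (-49) * u ^ 5 * v
        ^ 2 * p ^ 2 + (-56) * u ^ 5 * v ^ 2 * p ^ 3 + (7) * u ^ 5 * v ^ 2 * p ^ 4 + (7) * u ^ 5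
        * v ^ 2 * p ^ 5 + (-7) * u ^ 6 * v ^ 1 * p ^ 1 + (7) * u ^ 6 * v ^ 1 * p ^ 2 + (-14) * u
        ^ 6 * v ^ 1 * p ^ 3 + (-14) * u ^ 6 * v ^ 1 * p ^ 4 + (1) * u ^ 7 * v ^ 0 * p ^ 0 + (14)
        * u ^ 7 * v ^ 0 * p ^ 1 + (7) * u ^ 7 * v ^ 0 * p ^ 2 + (7) * u ^ 7 * v ^ 0 * p ^ 3) * hp
  induction x using OnePoint.rec with
  | infty => simpa using key 1 0 (Or.inl one_ne_zero)
  | coe z => simpa [pt] using key z 1 (Or.inr one_ne_zero)

lemma count_mob {n : ℕ} (ho : Odd n) (c : ℂ) :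
    multCount (io ∘ F7^[n]) c = multCount F7^[n] c := by
  have hM : ∀ x, (io ∘ F7^[n]) (mob (-1) p p 1 x) = mob (-1) p p 1 (F7^[n] x) := by
    intro x
    rw [← (io_iterate F7_io n).2 ho]
    exact ((show Function.Semiconj _ _ _ from fun x => (G_mob hp x).symm).iterate_right n x).symm
  have hi : Function.Involutive (mob (-1) p p 1) := mob_mob hp
  have gH : Good F7^[n] := (good_rm _ _).iterate n
  have rK : RegFix (io ∘ F7^[n]) := (gH.comp (good_sc (-1))).regFix_inv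
  have h0 : F7^[n] ((0 : ℂ) : P1) = ((0 : ℂ) : P1) := (SA_F7.iterate ho.pos).2.1
  have hs := (atInf_F7.sa le_rfl).iterate ho.pos
  rw [← inv_iterate_inv] at hs
  generalize F7^[n] = H at *
  rw [multCount_tsum, multCount_tsum, ← hi.toPerm.tsum_eq]
  refine tsum_congr fun x => ?_
  show wt (io ∘ H) c (mob (-1) p p 1 x) = _
  by_cases e : H x = x
  swap
  · rw [wt_of_ne e, wt_of_ne]
    rw [hM]
    exact fun e' => e (hi.injective e')
  have e' : (io ∘ H) (mob (-1) p p 1 x) = mob (-1) p p 1 x := by rw [hM, e]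
  induction x using OnePoint.rec with
  | infty =>
    have hM' : ∀ x, mob p (-1) 1 p x = mob (-1) p p 1 (inv x) := by
      intro x
      induction x using OnePoint.rec with
      | infty => simp
      | coe z =>
        rw [inv_coe, mob_pt _ _ _ _ (Or.inl one_ne_zero), mob_coe]
        congr 1 <;> ring
    rw [wt_infty H, ← inv_zero', ← hM'] at *
    refine wt_mob (fun h => p_det hp (by linear_combination -h)) (fun x => ?_) hs.1 hs.2.1
      (by simpa using p_ne hp) (rK _ (by simpa using p_ne hp) ?_) c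
    · rw [hM', hM', hM]; simp
    · rwa [mob_coe, pt_of_ne (by simpa using p_ne hp)] at e'
  | coe z =>
    have n1 : p * z + 1 ≠ 0 := by
      intro h
      rw [mob_coe, h, pt_zero, Function.comp, gH.1] at e'
      simp at e'
    have n2 : (-1 * z + p) / (p * z + 1) ≠ 0 := by
      intro h
      rw [mob_coe, pt_of_ne n1, h, Function.comp, h0] at e'
      simp at e'
    refine wt_mob (p_det hp) hM (gH.2 z (by simp [e])) e n1 (rK _ n2 ?_) c
    rwa [mob_coe, pt_of_ne n1] at e'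

end

theorem sameSpectrum7 : SameSpectrum f7 (io ∘ f7) := by
  intro n hn c
  rcases Nat.even_or_odd n with he | ho
  · rw [(io_iterate f7_io n).1 he]
  rw [(io_iterate f7_io n).2 ho]
  obtain ⟨p, hp⟩ : ∃ p : ℂ, p ^ 2 = p + 1 := by
    obtain ⟨s, hs⟩ := IsAlgClosed.exists_eq_mul_self (5 : ℂ)
    exact ⟨(1 + s) / 2, by linear_combination -hs / 4⟩
  have key := count_mob hp ho c
  have gH : Good F7^[n] := (good_rm _ _).iterate n
  have gh : Good f7^[n] := (good_rm _ _).iterate n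
  have hq : ∀ x, f7^[n] (pw x) = pw (F7^[n] x) :=
    fun x => ((show Function.Semiconj pw _ _ from fun x => (f7_pw x).symm).iterate_right n x).symm
  obtain ⟨e, he, hs⟩ : ∃ e, (e = 2 ∨ e = 3) ∧
      ∀ s : ℂ, s ^ 5 = 1 → ∀ x, F7^[n] (sc s x) = sc (s ^ e) (F7^[n] x) := by
    refine ⟨2 ^ n % 5, ?_, fun s hs x => ?_⟩
    · obtain ⟨k, rfl⟩ := ho
      rcases Nat.even_or_odd' k with ⟨j, rfl | rfl⟩
      · left
        rw [show 2 * (2 * j) + 1 = 4 * j + 1 by ring, pow_succ, pow_mul, Nat.mul_mod, Nat.pow_mod]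
        norm_num
      · right
        rw [show 2 * (2 * j + 1) + 1 = 4 * j + 3 by ring, pow_add, pow_mul, Nat.mul_mod,
          Nat.pow_mod]
        norm_num
    · rw [← pow_eq_pow_mod _ hs]
      exact Dat0.F_iterate_sc n hs x
  have h1 := Sfin_pw gH.regFix gh.regFix hq he hs c
  have h2 := Sfin_pw (h := io ∘ F7^[n]) (k := io ∘ f7^[n]) (e := 5 - e)
    (gH.comp (good_sc (-1))).regFix_inv (gh.comp (good_sc (-1))).regFix_inv
    (fun x => by simp only [Function.comp, hq, pw_io]) (by omega) (fun s h5 x => by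
      have s0 : s ≠ 0 := by rintro rfl; simp at h5
      simp only [Function.comp]
      rw [hs s h5, io_sc (pow_ne_zero _ s0)]
      congr 1
      apply inv_eq_of_mul_eq_one_right
      rw [← pow_add, show e + (5 - e) = 5 by omega, h5]) c
  rw [multCount_split, multCount_split, ← h1, ← h2, atInf_F7.wt le_rfl hn,
    (SA_F7.iterate hn).wt, wt_of_ne (by simp [gH.1]),
    wt_of_ne (by simp [(SA_F7.iterate hn).2.1])] at key
  rw [multCount_split, multCount_split, atInf_f7.wt le_rfl hn,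
    (SA_f7.iterate hn).wt, wt_of_ne (h := io ∘ f7^[n]) (by simp [gh.1]),
    wt_of_ne (h := io ∘ f7^[n]) (by simp [(SA_f7.iterate hn).2.1]), key]

lemma cop7 : IsCoprime P7 Q7 := by
  refine (Polynomial.isCoprime_iff_aeval_ne_zero_of_isAlgClosed ℂ ℂ P7 Q7).2 fun w => ?_
  simpa using ncf w

lemma f7_eq : f7 = ratMap P7 Q7 := by
  funext x
  induction x using OnePoint.rec with
  | infty =>
    rw [ratMap_infty, deg_P7, deg_Q7, coeff_eq_zero_of_natDegree_lt (p := Q7) (by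
      rw [deg_Q7]; norm_num), pt_zero]
    rfl
  | coe z => rfl

lemma g7_eq : io ∘ f7 = ratMap (-Q7) P7 := by
  funext x
  induction x using OnePoint.rec with
  | infty =>
    rw [ratMap_infty, natDegree_neg, deg_P7, deg_Q7, coeff_eq_zero_of_natDegree_lt (p := -Q7) (by
      rw [natDegree_neg, deg_Q7]; norm_num), eq_comm]
    refine pt_eq_coe.2 ⟨?_, by simp⟩
    rw [show max 5 7 = P7.natDegree by rw [deg_P7]; rfl]
    exact leadingCoeff_ne_zero.2 (by intro e; have := deg_P7; rw [e] at this; simp at this)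
  | coe z =>
    rw [Function.comp, f7, rm_coe, io_pt (ncf z), ratMap_coe, eval_neg]

lemma isRat_f7 : IsRat 7 f7 := ⟨_, _, cop7, by rw [deg_P7, deg_Q7]; rfl, f7_eq⟩

lemma isRat_g7 : IsRat 7 (io ∘ f7) :=
  ⟨_, _, cop7.symm.neg_left, by rw [natDegree_neg, deg_P7, deg_Q7]; rfl, g7_eq⟩

lemma inv7 : Inv2 3 7 0 f7 := by
  refine ⟨isRat_f7.genDeg, ⟨_, SA_f7.2.1, ?_⟩, Or.inl (by norm_num)⟩
  have : nf f7 ((0 : ℂ) : P1) ≤ 2 := by
    refine (Set.ncard_le_ncard (t := {((0 : ℂ) : P1), ((-7 : ℂ) : P1)}) (fun x hx => ?_)).trans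
      ((Set.ncard_insert_le _ _).trans (by simp))
    induction x using OnePoint.rec with
    | infty => simp [f7] at hx
    | coe z =>
      rw [mem_preimage, mem_singleton_iff, f7_coe, pt_eq_coe] at hx
      simpa [add_eq_zero_iff_eq_neg] using hx.2
  omega

lemma not_small7 : ¬ Small 3 7 (io ∘ f7) := by
  rintro ⟨x, hx, hc⟩
  induction x using OnePoint.rec with
  | infty => simp [f7] at hx
  | coe c =>
    have c0 : c ≠ 0 := by
      rintro rfl
      simp [SA_f7.2.1] at hx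
    have cop := cop7.symm.neg_left
    have hm : max (-Q7).natDegree P7.natDegree = 7 := by rw [natDegree_neg, deg_P7, deg_Q7]; rfl
    have hne : ratMap (-Q7) P7 ∞ ≠ (c : P1) := by rw [← g7_eq]; simpa [f7] using c0.symm
    rw [g7_eq, nf_eq cop (by omega), if_neg hne] at hc
    have hU := frm_ne cop (by omega) (c : P1)
    have hW := wr_ne cop (by omega)
    have h1 := deg_le_card hU ((frm_wr (c : P1)).symm ▸ hW)
    have e : wronskian (-Q7) P7 =
        (X * (X + 7) ^ 4 * (1 - 7 * X) ^ 4) * (14 * X ^ 2 - 154 * X - 14) := by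
      apply Polynomial.funext
      intro z
      simp [wronskian, P7, Q7, derivative_pow]
      ring
    rw [frm_deg_of_ne cop hne, hm, frm_wr, e] at h1
    rw [e] at hW
    have h2 : ∑ z ∈ (frm (-Q7) P7 (c : P1)).roots.toFinset, ((X * (X + 7) ^ 4 * (1 - 7 * X) ^ 4) *
        (14 * X ^ 2 - 154 * X - 14) : ℂ[X]).rootMultiplicity z ≤
        (14 * X ^ 2 - 154 * X - 14 : ℂ[X]).natDegree := by
      rw [← sum_mult]
      refine le_trans (Finset.sum_le_sum fun z hz => ?_) (Finset.sum_le_sum_of_ne_zero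
        (s := (frm (-Q7) P7 (c : P1)).roots.toFinset) fun z _ hz => ?_)
      · rw [Multiset.mem_toFinset, mem_roots hU, ← frm_root cop, ratMap_coe, pt_eq_coe] at hz
        obtain ⟨z1, z2⟩ := hz
        have z3 : Q7.eval z ≠ 0 := by
          intro e
          rw [eval_neg, e, neg_zero] at z2
          exact mul_ne_zero c0 z1 z2.symm
        rw [rootMultiplicity_mul hW, rootMultiplicity_eq_zero, zero_add]
        simp only [P7, Q7, eval_mul, eval_pow, ne_eq, mul_eq_zero, pow_eq_zero_iff, not_or,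
          OfNat.ofNat_ne_zero, not_false_eq_true] at z1 z3
        simp only [IsRoot.def, eval_mul, eval_pow, mul_eq_zero, pow_eq_zero_iff, not_or, ne_eq,
          OfNat.ofNat_ne_zero, not_false_eq_true]
        exact ⟨z1, z3⟩
      · rw [Multiset.mem_toFinset, mem_roots (right_ne_zero_of_mul hW)]
        by_contra e
        exact hz (rootMultiplicity_eq_zero e)
    have h3 : (14 * X ^ 2 - 154 * X - 14 : ℂ[X]).natDegree ≤ 2 := by compute_degree
    omega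

theorem counter7 : Counter 7 f7 (io ∘ f7) :=
  ⟨isRat_f7, isRat_g7, fun h => not_small7 (inv7.of_isConjugate h).2.1, sameSpectrum7,
    atInf_f7.not_isLattes le_rfl, fun h => by
      have h1 := isLattes_comp_self h
      have h2 : (io ∘ f7) ∘ (io ∘ f7) = f7 ∘ f7 := (io_iterate f7_io 2).1 even_two
      rw [h2] at h1
      exact atInf_f7.comp_self.not_isLattes (by norm_num) h1,
    fun h => not_small7 (inv7.of_elemEquiv (by decide) (fun k _ _ => by omega) h).2.1⟩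

end Pool.Agent.Lib.MP_af33d6_an.OD
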