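import Pool.Agent.Lib.MP_af33d6_an.OD.Pal

/-!
Maps `F(z) = z ^ r A(z ^ N) / B(z ^ N)` commuting with `z ↦ 1 / z` and their quotients.
-/

open Polynomial Filter Topology OnePoint Set

namespace Pool.Agent.Lib.MP_af33d6_an.OD

/-- numerator of `F` -/
noncomputable def num (N r : ℕ) (A : ℂ[X]) : ℂ[X] := X ^ r * expand ℂ N A

/-- the polynomial whose roots give the critical points of `F` -/
noncomputable def crit (N r : ℕ) (A B : ℂ[X]) : ℂ[X] :=
  C (r : ℂ) * (A * B) + C (N : ℂ) * (X * (derivative A * B - A * derivative B))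

/-- hypotheses on the data defining `F` -/
structure Dat0 (N r m : ℕ) (A B : ℂ[X]) : Prop where
  hN : Even N
  hN4 : 4 ≤ N
  hr : Odd r
  hr2 : 2 ≤ r
  hrm : r ≤ m * N
  cop : Nat.Coprime r N
  half1 : ∀ n, Odd n → ∃ s : ℂ, s ^ N = 1 ∧ -1 * s ^ r ^ n = s
  half2 : ∀ n, Odd n → ∃ s : ℂ, s ^ N = 1 ∧ s * (-1 * s ^ r ^ n) = 1
  degA : A.natDegree = m
  degB : B.natDegree = m
  rev : ∀ u : ℂ, u ≠ 0 → u ^ m * A.eval u⁻¹ = B.eval u
  A0 : A.eval 0 ≠ 0
  B0 : B.eval 0 ≠ 0
  nc : ∀ u, A.eval u ≠ 0 ∨ B.eval u ≠ 0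
  sep : ∀ u, B.eval u = 0 → (derivative B).eval u ≠ 0
  c1 : (crit N r A B).eval 1 = 0

/-- the data together with the quotient map `P / Q` -/
structure Dat (N r m : ℕ) (A B P Q : ℂ[X]) : Prop extends Dat0 N r m A B where
  hP : ∀ z : ℂ, z ≠ 0 → z ^ (r + m * N) * P.eval (z + z⁻¹) =
    (num N r A).eval z ^ 2 + (expand ℂ N B).eval z ^ 2
  hQ : ∀ z : ℂ, z ≠ 0 → z ^ (r + m * N) * Q.eval (z + z⁻¹) =
    (num N r A).eval z * (expand ℂ N B).eval z

lemma eval_num (N r : ℕ) (A : ℂ[X]) (z : ℂ) : (num N r A).eval z = z ^ r * A.eval (z ^ N) := by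
  simp [num, expand_eval]

namespace Dat0

variable {N r m : ℕ} {A B : ℂ[X]} (D : Dat0 N r m A B)
include D

lemma N0 : N ≠ 0 := by have := D.hN4; omega

lemma r0 : r ≠ 0 := by have := D.hr2; omega

lemma odd_d : Odd (r + m * N) := D.hr.add_even (D.hN.mul_left m)

lemma A_ne : A ≠ 0 := by intro e; exact D.A0 (by simp [e])

lemma B_ne : B ≠ 0 := by intro e; exact D.B0 (by simp [e])

lemma den_ne : expand ℂ N B ≠ 0 := (expand_ne_zero (Nat.pos_of_ne_zero D.N0)).2 D.B_ne

lemma num_ne : num N r A ≠ 0 :=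
  mul_ne_zero (pow_ne_zero _ X_ne_zero) ((expand_ne_zero (Nat.pos_of_ne_zero D.N0)).2 D.A_ne)

lemma deg_num : (num N r A).natDegree = r + m * N := by
  rw [num, (monic_X_pow _).natDegree_mul'
    ((expand_ne_zero (Nat.pos_of_ne_zero D.N0)).2 D.A_ne), natDegree_X_pow, natDegree_expand,
    D.degA]

lemma deg_den : (expand ℂ N B).natDegree = m * N := by rw [natDegree_expand, D.degB]

lemma den_zero : (expand ℂ N B).eval 0 ≠ 0 := by
  rw [expand_eval, zero_pow D.N0]; exact D.B0

lemma num_zero : (num N r A).eval 0 = 0 := by rw [eval_num, zero_pow D.r0, zero_mul]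

lemma ncz (z : ℂ) : (num N r A).eval z ≠ 0 ∨ (expand ℂ N B).eval z ≠ 0 := by
  by_cases hz : z = 0
  · right; rw [hz]; exact D.den_zero
  · rw [eval_num, expand_eval]
    exact (D.nc _).imp_left fun h => mul_ne_zero (pow_ne_zero _ hz) h

lemma rev_num {z : ℂ} (hz : z ≠ 0) :
    z ^ (r + m * N) * (num N r A).eval z⁻¹ = (expand ℂ N B).eval z := by
  rw [eval_num, expand_eval, ← D.rev _ (pow_ne_zero _ hz), pow_add, mul_comm m N, pow_mul,
    inv_pow, inv_pow]
  field_simp

lemma rev_den {z : ℂ} (hz : z ≠ 0) :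
    z ^ (r + m * N) * (expand ℂ N B).eval z⁻¹ = (num N r A).eval z := by
  rw [← D.rev_num (inv_ne_zero hz), inv_inv, inv_pow]
  field_simp

lemma exists_PQ : ∃ P Q, Dat N r m A B P Q := by
  obtain ⟨P, hP⟩ := pal (r + m * N) (num N r A ^ 2 + expand ℂ N B ^ 2) (by
    refine (natDegree_add_le _ _).trans (max_le ?_ ?_)
    · rw [natDegree_pow, D.deg_num]
    · rw [natDegree_pow, D.deg_den]; omega) (fun z hz => by
    simp only [eval_add, eval_pow]
    rw [← D.rev_num hz, ← D.rev_den hz]; ring)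
  obtain ⟨Q, hQ⟩ := pal (r + m * N) (num N r A * expand ℂ N B) (by
    refine natDegree_mul_le.trans ?_
    rw [D.deg_num, D.deg_den]; omega) (fun z hz => by
    simp only [eval_mul]
    rw [← D.rev_num hz, ← D.rev_den hz]; ring)
  exact ⟨P, Q, D, fun z hz => by simpa using hP z hz, fun z hz => by simpa using hQ z hz⟩

lemma wr_eq : wronskian (num N r A) (expand ℂ N B) =
    -X ^ (r - 1) * expand ℂ N (crit N r A B) := by
  obtain ⟨a, ha⟩ := Nat.exists_eq_succ_of_ne_zero D.r0
  obtain ⟨b, hb⟩ := Nat.exists_eq_succ_of_ne_zero D.N0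
  simp only [wronskian, num, crit, derivative_mul, derivative_expand, derivative_X_pow, map_add,
    map_mul, map_sub, expand_X, map_natCast]
  generalize expand ℂ N A = A1
  generalize expand ℂ N B = B1
  generalize expand ℂ N (derivative A) = A2
  generalize expand ℂ N (derivative B) = B2
  rw [ha, hb]
  simp only [Nat.succ_eq_add_one, Nat.add_sub_cancel]
  ring

lemma crit_ne : crit N r A B ≠ 0 := by
  intro e
  have := congrArg (eval 0) e
  simp [crit, D.r0, D.A0, D.B0] at this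

lemma crit_deg : (crit N r A B).natDegree ≤ 2 * m := by
  have h1 : (A * B).natDegree ≤ 2 * m := natDegree_mul_le.trans (by rw [D.degA, D.degB]; omega)
  refine (natDegree_add_le _ _).trans (max_le ((natDegree_C_mul_le _ _).trans h1)
    ((natDegree_C_mul_le _ _).trans ?_))
  have hm : 1 ≤ m := by
    have := D.hr2
    have h2 := D.hrm
    rcases Nat.eq_zero_or_pos m with h | h
    · rw [h] at h2; omega
    · exact h
  have h2 : (derivative A * B).natDegree ≤ 2 * m - 1 := natDegree_mul_le.trans (by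
    have := natDegree_derivative_le A
    rw [D.degA] at this
    rw [D.degB]; omega)
  have h3 : (A * derivative B).natDegree ≤ 2 * m - 1 := natDegree_mul_le.trans (by
    have := natDegree_derivative_le B
    rw [D.degB] at this
    rw [D.degA]; omega)
  have h4 := (natDegree_sub_le _ _).trans (max_le h2 h3)
  refine natDegree_mul_le.trans ?_
  rw [natDegree_X]; omega

lemma pow_sq {z : ℂ} (hz : z * z = 1) : z ^ N = 1 ∧ z ^ (r + m * N) = z := by
  rcases mul_self_eq_one_iff.1 hz with rfl | rfl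
  · simp
  · exact ⟨D.hN.neg_one_pow, D.odd_d.neg_one_pow⟩

lemma fix_sq {z : ℂ} (hz : z * z = 1) :
    (expand ℂ N B).eval z ≠ 0 ∧ (num N r A).eval z = z * (expand ℂ N B).eval z := by
  have hz0 : z ≠ 0 := by rintro rfl; simp at hz
  have h1 := D.rev_den hz0
  rw [(D.pow_sq hz).2, inv_eq_of_mul_eq_one_left hz] at h1
  refine ⟨fun e => ?_, h1.symm⟩
  rcases D.ncz z with h | h
  · exact h (by rw [← h1, e, mul_zero])
  · exact h e

lemma wr_sq {z : ℂ} (hz : z * z = 1) : (derivative (num N r A)).eval z * (expand ℂ N B).eval z -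
    (num N r A).eval z * (derivative (expand ℂ N B)).eval z = 0 := by
  have := congrArg (eval z) D.wr_eq
  rw [eval_mul, expand_eval, (D.pow_sq hz).1, D.c1, mul_zero, wronskian, eval_sub, eval_mul,
    eval_mul] at this
  linear_combination -this

lemma SA_F {z : ℂ} (hz : z * z = 1) : SA (rm (num N r A) (expand ℂ N B)) z := by
  have hfix : rm (num N r A) (expand ℂ N B) (z : P1) = (z : P1) := by
    rw [rm_coe, pt_eq_coe]; exact D.fix_sq hz
  exact ⟨(good_rm _ _).2 _ (by rw [hfix]; simp), hfix,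
    deriv_rm_eq_zero _ _ (D.fix_sq hz).1 (D.wr_sq hz)⟩

omit D in
lemma F_sc {s : ℂ} (hs : s ^ N = 1) (x : P1) : rm (num N r A) (expand ℂ N B) (sc s x) =
    sc (s ^ r) (rm (num N r A) (expand ℂ N B) x) := by
  induction x using OnePoint.rec with
  | infty => simp
  | coe z =>
    rw [sc_coe, rm_coe, rm_coe, sc_pt, eval_num, eval_num, expand_eval, expand_eval, mul_pow s z N,
      hs, one_mul, mul_pow, mul_assoc]

omit D in
lemma F_iterate_sc (n : ℕ) {s : ℂ} (hs : s ^ N = 1) (x : P1) :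
    (rm (num N r A) (expand ℂ N B))^[n] (sc s x) =
      sc (s ^ r ^ n) ((rm (num N r A) (expand ℂ N B))^[n] x) := by
  induction n with
  | zero => simp
  | succ n ih =>
    rw [Function.iterate_succ_apply', Function.iterate_succ_apply', ih, F_sc, ← pow_mul, pow_succ]
    rw [← pow_mul, mul_comm, pow_mul, hs, one_pow]

end Dat0

namespace Dat

variable {N r m : ℕ} {A B P Q : ℂ[X]} (D : Dat N r m A B P Q)
include D

lemma ncw (w : ℂ) : P.eval w ≠ 0 ∨ Q.eval w ≠ 0 := by
  obtain ⟨z, hz, rfl⟩ := exists_add_inv w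
  by_contra! h
  have h1 := D.hP z hz
  have h2 := D.hQ z hz
  rw [h.1, mul_zero] at h1
  rw [h.2, mul_zero] at h2
  rcases mul_eq_zero.1 h2.symm with e | e
  · rw [e] at h1
    exact (D.ncz z).elim (fun h => h e) (fun h => h (by simpa using h1.symm))
  · rw [e] at h1
    exact (D.ncz z).elim (fun h => h (by simpa using h1.symm)) (fun h => h e)

lemma Q_ne : Q ≠ 0 := by
  intro e
  have h1 := D.hQ 1 one_ne_zero
  have h2 := D.fix_sq (z := 1) (by simp)
  rw [e, h2.2, eval_zero, mul_zero, one_mul] at h1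
  exact mul_ne_zero h2.1 h2.1 h1.symm

lemma deg_Q : Q.natDegree = m * N := by
  have := pal_deg (d := r + m * N) (S := num N r A * expand ℂ N B) D.Q_ne
    (fun z hz => by rw [eval_mul]; exact D.hQ z hz)
  rw [natDegree_mul D.num_ne D.den_ne, D.deg_num, D.deg_den] at this
  omega

lemma deg_P : P.natDegree = r + m * N := by
  have h1 : (num N r A ^ 2 + expand ℂ N B ^ 2).natDegree = 2 * (r + m * N) := by
    rw [natDegree_add_eq_left_of_natDegree_lt, natDegree_pow, D.deg_num]
    rw [natDegree_pow, natDegree_pow, D.deg_num, D.deg_den]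
    have := D.hr2
    omega
  have hP : P ≠ 0 := by
    intro e
    have h1 := D.hP 1 one_ne_zero
    have h2 := D.fix_sq (z := 1) (by simp)
    rw [e, h2.2] at h1
    apply h2.1
    have h3 : 2 * (expand ℂ N B).eval 1 ^ 2 = 0 := by simpa [two_mul] using h1.symm
    simpa using h3
  have := pal_deg (d := r + m * N) (S := num N r A ^ 2 + expand ℂ N B ^ 2) hP
    (fun z hz => by simpa using D.hP z hz)
  omega

lemma cop_e {ε : ℂ} (hε : ε ≠ 0) : IsCoprime (C ε * P) Q := by
  refine (isCoprime_mul_unit_left_left (isUnit_C.2 hε.isUnit) _ _).2 ?_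
  refine (Polynomial.isCoprime_iff_aeval_ne_zero_of_isAlgClosed ℂ ℂ P Q).2 fun w => ?_
  simpa using D.ncw w

lemma max_deg {ε : ℂ} (hε : ε ≠ 0) : max (C ε * P).natDegree Q.natDegree = r + m * N := by
  rw [natDegree_C_mul hε, D.deg_P, D.deg_Q]; omega

lemma f_eq {ε : ℂ} (hε : ε ≠ 0) : rm (C ε * P) Q = ratMap (C ε * P) Q := by
  funext x
  induction x using OnePoint.rec with
  | infty =>
    rw [ratMap_infty, D.max_deg hε, coeff_eq_zero_of_natDegree_lt (p := Q) (by
      rw [D.deg_Q]; have := D.hr2; omega), pt_zero]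
    rfl
  | coe z => rfl

lemma isRat {ε : ℂ} (hε : ε ≠ 0) : IsRat (r + m * N) (rm (C ε * P) Q) :=
  ⟨_, _, D.cop_e hε, D.max_deg hε, D.f_eq hε⟩

lemma atInf {ε : ℂ} (hε : ε ≠ 0) : AtInf (rm (C ε * P) Q) r :=
  atInf_rm (by have := D.hr2; omega) D.Q_ne (by rw [natDegree_C_mul hε, D.deg_P, D.deg_Q]; ring)
    (no_common_root (D.cop_e hε))

lemma f_qm (x : P1) : rm (C 1 * P) Q (qm x) = qm (rm (num N r A) (expand ℂ N B) x) := by
  induction x using OnePoint.rec with
  | infty => simp
  | coe z =>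
    rw [rm_coe, qm_pt]
    by_cases hz : z = 0
    · simp [hz, D.num_zero]
    · rw [qm_coe hz, rm_coe, ← pt_mul (pow_ne_zero (r + m * N) hz), C_1, one_mul, D.hP z hz,
        D.hQ z hz]

omit D in
lemma f_neg (x : P1) : rm (C (-1) * P) Q x = sc (-1) (rm (C 1 * P) Q x) := by
  induction x using OnePoint.rec with
  | infty => simp
  | coe w => simp [sc_pt]

lemma f_odd (x : P1) : rm (C 1 * P) Q (sc (-1) x) = sc (-1) (rm (C 1 * P) Q x) := by
  induction x using OnePoint.rec with
  | infty => simp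
  | coe w =>
    obtain ⟨z, hz, rfl⟩ := exists_add_inv w
    rw [← qm_coe hz, ← qm_neg, D.f_qm, D.f_qm, Dat0.F_sc D.hN.neg_one_pow, D.hr.neg_one_pow,
      qm_neg]

lemma f_neg_iterate (n : ℕ) (x : P1) :
    (rm (C (-1) * P) Q)^[n] x = sc ((-1) ^ n) ((rm (C 1 * P) Q)^[n] x) := by
  induction n with
  | zero => simp
  | succ n ih =>
    rw [Function.iterate_succ_apply', Function.iterate_succ_apply', ih, f_neg]
    rcases neg_one_pow_eq_or ℂ n with h | h
    · rw [pow_succ, h, sc_one, one_mul]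
    · rw [pow_succ, h, D.f_odd, sc_sc]

lemma mult_roots {e : ℂ} (he : e * e = 1) {w : ℂ} (hw : (P - C (2 * e) * Q).eval w = 0) :
    (derivative (P - C (2 * e) * Q)).eval w = 0 := by
  refine pal_sq (d := r + m * N) (V := num N r A - C e * expand ℂ N B) (fun z hz => ?_)
    (fun z hz h0 => ?_) hw
  · simp only [eval_sub, eval_mul, eval_C]
    linear_combination D.hP z hz - 2 * e * D.hQ z hz - (expand ℂ N B).eval z ^ 2 * he
  · simp only [eval_sub, eval_mul, eval_C, derivative_sub, derivative_mul, derivative_C,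
      zero_mul, zero_add] at h0 ⊢
    apply mul_right_cancel₀ (D.fix_sq hz).1
    linear_combination D.wr_sq hz + (derivative (expand ℂ N B)).eval z * h0

lemma f_fix {z : ℂ} (hz : z * z = 1) : rm (C 1 * P) Q ((2 * z : ℂ) : P1) = ((2 * z : ℂ) : P1) := by
  have hz0 : z ≠ 0 := by rintro rfl; simp at hz
  have e : z + z⁻¹ = 2 * z := by rw [inv_eq_of_mul_eq_one_left hz]; ring
  rw [← e, ← qm_coe hz0, D.f_qm, (D.SA_F hz).2.1]

lemma SA_f {z : ℂ} (hz : z * z = 1) : SA (rm (C 1 * P) Q) (2 * z) := by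
  have hfix := D.f_fix hz
  have h1 := hfix
  rw [rm_coe, pt_eq_coe, C_1, one_mul] at h1
  refine ⟨(good_rm _ _).2 _ (by rw [hfix]; simp), hfix, deriv_rm_eq_zero _ _ h1.1 ?_⟩
  have h2 := D.mult_roots hz (w := 2 * z) (by simp [h1.2])
  simp only [eval_sub, eval_mul, eval_C, derivative_sub, derivative_mul, derivative_C,
      zero_mul, zero_add] at h2
  rw [C_1, one_mul, h1.2]
  linear_combination Q.eval (2 * z) * h2

theorem sameSpectrum : SameSpectrum (rm (C 1 * P) Q) (rm (C (-1) * P) Q) := by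
  intro n hn c
  rcases Nat.even_or_odd n with he | ho
  · congr 1
    funext x
    rw [D.f_neg_iterate, he.neg_one_pow, sc_one]
  rw [multCount_eq, multCount_eq, (D.atInf one_ne_zero).wt D.hr2 hn,
    (D.atInf (by norm_num)).wt D.hr2 hn]
  congr 1
  have hg : (rm (C (-1) * P) Q)^[n] = sc (-1) ∘ (rm (C 1 * P) Q)^[n] := by
    funext x
    rw [D.f_neg_iterate, ho.neg_one_pow, Function.comp]
  have SF := fun z hz => (D.SA_F (z := z) hz).iterate hn
  have Sf := fun z hz => (D.SA_f (z := z) hz).iterate hn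
  have hsc := fun s hs x => Dat0.F_iterate_sc (N := N) (r := r) (A := A) (B := B) n (s := s) hs x
  have gF := (good_rm (num N r A) (expand ℂ N B)).iterate n
  have gf := (good_rm (C 1 * P) Q).iterate n
  have hq : ∀ x, (rm (C 1 * P) Q)^[n] (qm x) = qm ((rm (num N r A) (expand ℂ N B))^[n] x) :=
    fun x => ((show Function.Semiconj qm _ _ from fun x => (D.f_qm x).symm).iterate_right n x).symm
  generalize (rm (num N r A) (expand ℂ N B))^[n] = F at *
  generalize (rm (C 1 * P) Q)^[n] = f at *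
  have h1 := two_mul_tsum gF gf hq c (fun z hz => by
    rw [(Sf z hz).wt, (SF z hz).wt, ((SF z hz).inv_comp hz).wt, two_mul])
  have h2 := two_mul_tsum (gF.comp (good_sc (-1))) (gf.comp (good_sc (-1)))
    (fun x => by simp only [Function.comp, hq, qm_neg]) c (fun z hz => by
      have hz0 : z ≠ 0 := by rintro rfl; simp at hz
      have hneg : ∀ y : ℂ, y ≠ 0 → -1 * y ≠ y := by
        intro y hy e
        apply hy
        linear_combination (-1 / 2) * e
      rw [wt_of_ne, wt_of_ne, wt_of_ne, mul_zero, add_zero]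
      · simp only [Function.comp]
        rw [(SF z hz).2.1, sc_coe, inv_coe_of_ne (by simpa using hz0), mul_inv,
          inv_eq_of_mul_eq_one_left hz, Ne, OnePoint.coe_eq_coe]
        simpa using hneg z hz0
      · simp only [Function.comp]
        rw [(SF z hz).2.1, sc_coe, Ne, OnePoint.coe_eq_coe]
        exact hneg z hz0
      · simp only [Function.comp]
        rw [(Sf z hz).2.1, sc_coe, Ne, OnePoint.coe_eq_coe]
        exact hneg _ (by simpa using hz0))
  have h3 : Sfin (sc (-1) ∘ F) c = Sfin F c := by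
    obtain ⟨s, hs, hs'⟩ := D.half1 n ho
    have hs0 : s ≠ 0 := by rintro rfl; simp [D.N0] at hs
    refine Sfin_scale gF.regFix (gF.comp (good_sc (-1))).regFix hs0 (fun x => ?_) c
    rw [Function.comp, hsc s hs, sc_sc, hs']
  have h4 : Sfin (inv ∘ sc (-1) ∘ F) c = Sfin (inv ∘ F) c := by
    obtain ⟨s, hs, hs'⟩ := D.half2 n ho
    have hs0 : s ≠ 0 := left_ne_zero_of_mul_eq_one hs'
    refine Sfin_scale gF.regFix_inv (gF.comp (good_sc (-1))).regFix_inv hs0 (fun x => ?_) c
    simp only [Function.comp]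
    rw [hsc s hs, sc_sc, inv_sc (right_ne_zero_of_mul_eq_one hs'), inv_eq_of_mul_eq_one_left hs']
  rw [h3, h4, ← h1] at h2
  rw [hg]
  exact ((ENNReal.mul_right_inj two_ne_zero (by norm_num)).1 h2).symm

end Dat

end Pool.Agent.Lib.MP_af33d6_an.OD
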